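import Mathlib
import Pool.Agent.Lib.MP_8f66f0_al_Wald.Defs
import Pool.Agent.Lib.MP_8f66f0_al_Wald.GrDefs
import Pool.Agent.Lib.MP_8f66f0_al_Wald.NilV

/-! Definitions for edge groups which act on trees with coherent stabilizers, and for the tower of
arbitrary length. -/

set_option autoImplicit false

namespace Pool.Agent.WaldT

open Pool.Agent.Wald Finsupp

/-- Left coherence: the kernel of every matrix (acting on rows) is finitely generated. -/
def KerFG (S : Type) [Ring S] : Prop :=
  ∀ (a b : ℕ) (h : Matrix (Fin a) (Fin b) S), (LinearMap.ker (Matrix.vecMulLinear h)).FG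

/-- An action of a group `E` on an oriented tree: `E` acts on the vertices `V` and on the oriented
edges `Ed`, compatibly with the origin `o` and the end `t` of an edge. The graph has no circuits
(`acyc`) and is connected (`conn`); both are expressed by integral chains. -/
structure TreeAct (E : Type) [Group E] where
  V : Type
  Ed : Type
  actV : MulAction E V
  actE : MulAction E Ed
  o : Ed → V
  t : Ed → V
  o_smul : ∀ (g : E) (e : Ed), o (g • e) = g • o e
  t_smul : ∀ (g : E) (e : Ed), t (g • e) = g • t e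
  root : V
  acyc : ∀ c : Ed →₀ ℤ, c.mapDomain t = c.mapDomain o → c = 0
  conn : ∀ v : V, ∃ c : Ed →₀ ℤ, c.mapDomain t - c.mapDomain o = single v 1 - single root 1

attribute [instance] TreeAct.actV TreeAct.actE

/-- Cohomological dimension at most `d`: the trivial module `ℤ` has projective dimension at most
`d` over `ℤE`. -/
def CdLE (d : ℕ) (E : Type) [Group E] : Prop :=
  CategoryTheory.HasProjectiveDimensionLE
    (ModuleCat.of (MonoidAlgebra ℤ E) (Representation.trivial ℤ E ℤ).asModule) d

/-- The class of edge groups: groups of cohomological dimension at most two; groups of finite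
cohomological dimension which act on a tree such that the group rings of all vertex and edge
stabilizers are coherent; and groups all of whose finitely generated subgroups are in the
class. -/
inductive EdgeClass : (E : Type) → [Group E] → Prop
  | cd2 (E : Type) [Group E] (h : CdLE2 E) : EdgeClass E
  | tree (E : Type) [Group E] (T : TreeAct E) (d : ℕ) (hd : CdLE d E)
      (hV : ∀ v : T.V, KerFG (MonoidAlgebra ℤ (MulAction.stabilizer E v)))
      (hE : ∀ e : T.Ed, KerFG (MonoidAlgebra ℤ (MulAction.stabilizer E e))) : EdgeClass E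
  | loc (E : Type) [Group E] (h : ∀ E' : Subgroup E, E'.FG → EdgeClass E') : EdgeClass E

/-- Kernels of matrices have projective dimension at most `p`. -/
def PDB (R : Type) [Ring R] (p : ℕ) : Prop :=
  ∀ (a b : ℕ) (e : (Fin a →₀ R) →ₗ[R] (Fin b →₀ R)),
    CategoryTheory.HasProjectiveDimensionLE (ModuleCat.of R (LinearMap.ker e)) p

section Dx

variable {E X : Type} [Group E] [MulAction E X]

/-- The element `r ⊗ x` of the twisted module `ℤE ⊗ ℤX`, written in the free `ℤE`-module with
basis `X` by means of `g ⊗ x = g [g⁻¹ x]`. -/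
noncomputable def dx (x : X) (r : MonoidAlgebra ℤ E) : X →₀ MonoidAlgebra ℤ E :=
  r.coeff.sum fun g a => single (g⁻¹ • x) (MonoidAlgebra.single g a)

/-- The map induced by a matrix `h` on the twisted modules. -/
noncomputable def tw {A B : Type} [Fintype A] (h : A → B → MonoidAlgebra ℤ E)
    (z : A → (X →₀ MonoidAlgebra ℤ E)) (b : B) : X →₀ MonoidAlgebra ℤ E :=
  ∑ a, Finsupp.linearCombination (MonoidAlgebra ℤ E) (fun x : X => dx x (h a b)) (z a)

end Dx

section Bd

variable {E : Type} [Group E] (T : TreeAct E)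

/-- The boundary map of the tree with coefficients in the group ring. -/
noncomputable def bd : (T.Ed →₀ MonoidAlgebra ℤ E) →ₗ[MonoidAlgebra ℤ E]
    (T.V →₀ MonoidAlgebra ℤ E) :=
  Finsupp.lmapDomain (MonoidAlgebra ℤ E) (MonoidAlgebra ℤ E) T.t -
    Finsupp.lmapDomain (MonoidAlgebra ℤ E) (MonoidAlgebra ℤ E) T.o

end Bd

section Lev

variable (R Λ : Type) [Ring R] [Ring Λ] [Module R Λ] [IsScalarTower R Λ Λ]

/-- A level of the tower: free modules `R^(J) → R^(L) → R^(M)`, exact in the middle, and a finite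
rank endomorphism `t` of `R^(J)` (with values in `Λ^(J)`) which preserves the kernel of `g`. -/
structure Lev where
  J : Type
  L : Type
  M : Type
  g : (J →₀ R) →ₗ[R] (L →₀ R)
  e : (L →₀ R) →ₗ[R] (M →₀ R)
  hg : LinearMap.range g = LinearMap.ker e
  t : Tr R Λ (J →₀ R) (J →₀ R)
  ht : ∀ z, g z = 0 → bc Λ g (t.app (emb R Λ J) z) = 0

variable {R Λ}

/-- A next level: a free module `R^(J₁)` with a map `d` onto the kernel of `g`, and a finite rank
endomorphism of it which covers the old one. -/
structure Lev.Nx (X : Lev R Λ) where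
  J₁ : Type
  d : (J₁ →₀ R) →ₗ[R] (X.J →₀ R)
  hd : LinearMap.range d = LinearMap.ker X.g
  t : Tr R Λ (J₁ →₀ R) (J₁ →₀ R)
  ht : ∀ w, bc Λ d (t.app (emb R Λ J₁) w) = X.t.app (emb R Λ X.J) (d w)

/-- The next level as a level. -/
noncomputable def Lev.Nx.lev {X : Lev R Λ} (N : X.Nx) : Lev R Λ where
  J := N.J₁
  L := X.J
  M := X.L
  g := N.d
  e := X.g
  hg := N.hd
  t := N.t
  ht z hz := by
    rw [N.ht, hz]
    unfold Tr.app
    exact Finset.sum_eq_zero fun a _ => by rw [map_zero, zero_smul]

/-- Triviality of the determinants of all further levels: at the last level (`p = 0`) every finite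
rank presentation of the restriction to the kernel has trivial invariant. -/
def Inv {K : Type} [CommGroup K] (κ : K1Fun Λ K) : ℕ → Lev R Λ → Prop
  | 0, X => ∀ tz : Tr R Λ (LinearMap.ker X.g) (LinearMap.ker X.g),
      (∀ z : LinearMap.ker X.g, tz.app (emb R Λ X.J ∘ₗ (LinearMap.ker X.g).subtype) z =
        X.t.app (emb R Λ X.J) (z : X.J →₀ R)) →
      IsUnit (1 - tz.mat) ∧ κ.f (1 - tz.mat) = 1
  | p + 1, X => ∃ N : X.Nx, (IsUnit (1 - N.t.mat) ∧ κ.f (1 - N.t.mat) = 1) ∧ Inv κ p N.lev

/-- An arrow from the level `X` (one stage further) to the level `X'`: a linear map `I` which maps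
kernel onto kernel, and a finite rank map `τ` back, with `I τ = t'` and `τ I = t`. -/
structure Arr (X' X : Lev R Λ) where
  I : (X.J →₀ R) →ₗ[R] (X'.J →₀ R)
  τ : Tr R Λ (X'.J →₀ R) (X.J →₀ R)
  hI : ∀ z, X.g z = 0 → X'.g (I z) = 0
  hIs : ∀ z', X'.g z' = 0 → ∃ z, X.g z = 0 ∧ I z = z'
  h1 : ∀ w, bc Λ I (τ.app (emb R Λ X.J) w) = X'.t.app (emb R Λ X'.J) w
  h2 : X.t = τ.pre I
  h3 : ∀ z', X'.g z' = 0 → bc Λ X.g (τ.app (emb R Λ X.J) z') = 0

/-- The first level of a stage. -/
noncomputable def levOf {n : ℕ} {ν : (Fin n →₀ R) →ₗ[R] (Fin n →₀ Λ)} (S : Stage R Λ n ν) :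
    Lev R Λ where
  J := S.J
  L := Fin S.r
  M := Fin n
  g := S.d
  e := S.e
  hg := S.hd
  t := S.t
  ht z hz := by rw [S.ht, hz, map_zero]

end Lev

end Pool.Agent.WaldT
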