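import Mathlib
import Pool.Agent.Lib.MP_8f66f0_al_WaldT.Defs

/-! Statements with complete proofs: edge groups acting on trees with coherent stabilizers satisfy
(C1), and Theorem N with kernels of projective dimension at most `p`.

Convention: left modules, elements are rows, matrices act on the right. `R = ℤE`. -/

set_option autoImplicit false

namespace Pool.Agent.WaldT

open Pool.Agent.Wald Finsupp

/-! ### Part A: trees -/

/-- A1 (DxA). Basic properties of `dx`.
PROOF. (1) `Finsupp.sum_single_index`. (2), (3) `Finsupp.sum_zero_index`, `Finsupp.sum_add_index'`.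
(4) by additivity (induction on `r`, e.g. with `SuppIn.induction` and `suppIn_univ` of Wald/Supp, or
`Finsupp.induction_linear` on coefficients) for `r = single h a`: both sides are
`single (h⁻¹ g⁻¹ g x) (single (g h) a) = single (h⁻¹ x) (single (g h) a)`. (5) additivity in `c` and
(4) with `g` in the stabilizer (`g • x = x`), and `single g a = a • single g 1`. (6), (7) for
`r = single g a`, then additivity; `f (g⁻¹ • x) = g⁻¹ • f x`. -/
def S_DxA : Prop :=
  ∀ (E X Y : Type) [Group E] [MulAction E X] [MulAction E Y],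
    (∀ (x : X) (g : E) (a : ℤ), dx x (MonoidAlgebra.single g a) =
      single (g⁻¹ • x) (MonoidAlgebra.single g a)) ∧
    (∀ x : X, dx x (0 : MonoidAlgebra ℤ E) = 0) ∧
    (∀ (x : X) (r s : MonoidAlgebra ℤ E), dx x (r + s) = dx x r + dx x s) ∧
    (∀ (x : X) (g : E) (r : MonoidAlgebra ℤ E), dx (g • x) (MonoidAlgebra.single g (1 : ℤ) * r) =
      (MonoidAlgebra.single g (1 : ℤ) : MonoidAlgebra ℤ E) • dx x r) ∧
    (∀ (x : X) (c : MonoidAlgebra ℤ (MulAction.stabilizer E x)) (r : MonoidAlgebra ℤ E),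
      dx x (inc (MulAction.stabilizer E x).subtype c * r) =
        inc (MulAction.stabilizer E x).subtype c • dx x r) ∧
    (∀ (x : X) (r : MonoidAlgebra ℤ E), Finsupp.linearCombination (MonoidAlgebra ℤ E)
      (fun _ : X => (1 : MonoidAlgebra ℤ E)) (dx x r) = r) ∧
    (∀ (f : X → Y), (∀ (g : E) (x : X), f (g • x) = g • f x) →
      ∀ (x : X) (r : MonoidAlgebra ℤ E), (dx x r).mapDomain f = dx (f x) r)

/-- A2 (DxSl). Slices: every element of the twisted module is a finite sum of `dx x (r x)`, and the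
`r x` are unique.
PROOF. Formula: the coefficient of `g : E` in `(∑ x ∈ S, dx x (r x)) x'` is the coefficient of `g` in
`r (g • x')` if `g • x' ∈ S`, and `0` otherwise (additivity, A1 (1)). (a) For `x ∈ S`, `g : E` take
`x' = g⁻¹ • x`: the coefficient of `g` in `r x` is `0`. (b) It is enough to treat one function
`z : X →₀ ℤE` (take the union of the sets `S`, and `κ x a = 0` outside the set of `a`; or do
induction). `z = ∑ x ∈ supp z, ∑ g ∈ supp (z x), single x (single g n) `, and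
`single x (single g n) = dx (g • x) (single g n)` by A1 (1): group by `g • x`. (Or prove the
existence by `Finsupp.induction_linear`: the set of `z` which have such a representation is closed
under addition: `S ∪ S'`, `κ + κ'` with the convention that the functions vanish outside.) -/
def S_DxSl : Prop :=
  ∀ (E X : Type) [Group E] [MulAction E X],
    (∀ (S : Finset X) (r : X → MonoidAlgebra ℤ E), ∑ x ∈ S, dx x (r x) = 0 → ∀ x ∈ S, r x = 0) ∧
    (∀ (A : Type) [Fintype A] (z : A → (X →₀ MonoidAlgebra ℤ E)),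
      ∃ (S : Finset X) (κ : X → A → MonoidAlgebra ℤ E), ∀ a, z a = ∑ x ∈ S, dx x (κ x a))

/-- A3 (Tw). The twisted map of a matrix.
PROOF. (1) `tw` is additive in `z` and `dx x` is additive, so it is enough that `m` is zero except
`m a = single g n` (finite sum over `a`, then over the support): `dx x (single g n) =
single (g⁻¹ x) (single g n)`, its image is `single g n • dx (g⁻¹ x) (h a b)
= n • (single g 1 • dx (g⁻¹ x) (h a b)) = n • dx x (single g 1 * h a b)` by A1 (4). (2)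
`linearCombination` is linear and `∑` of linear maps. (3) `Finsupp.linearCombination_mapDomain`,
A1 (7) and `mapDomain f` is linear (`Finsupp.lmapDomain`). (4) By (1) and (2)
`0 = tw h z b = ∑ x ∈ S, dx x (∑ a, κ x a * h a b)`; now A2 (a). -/
def S_Tw : Prop :=
  ∀ (E X Y : Type) [Group E] [MulAction E X] [MulAction E Y] (A B : Type) [Fintype A] [Fintype B]
    (h : A → B → MonoidAlgebra ℤ E),
    (∀ (x : X) (m : A → MonoidAlgebra ℤ E) (b : B), tw h (fun a => dx x (m a)) b =
      dx x (∑ a, m a * h a b)) ∧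
    (∀ (Q : Type) [Fintype Q] (c : Q → MonoidAlgebra ℤ E) (z : Q → A → (X →₀ MonoidAlgebra ℤ E))
      (b : B), tw h (fun a => ∑ q, c q • z q a) b = ∑ q, c q • tw h (z q) b) ∧
    (∀ (f : X → Y), (∀ (g : E) (x : X), f (g • x) = g • f x) →
      ∀ (z : A → (X →₀ MonoidAlgebra ℤ E)) (b : B),
        tw h (fun a => (z a).mapDomain f) b = (tw h z b).mapDomain f) ∧
    (∀ (S : Finset X) (κ : X → A → MonoidAlgebra ℤ E),
      (∀ b, tw h (fun a => ∑ x ∈ S, dx x (κ x a)) b = 0) → ∀ x ∈ S, ∀ b, ∑ a, κ x a * h a b = 0)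

/-- A4 (RelOne). Relations of finitely many elements at one point `y` are finitely generated.
PROOF. `C = Stab y`, `φ = C.subtype`. Choose a finite set `F ⊂ E` which meets every right coset
`C τ` in at most one element and such that all supports of the `m q a` lie in `⋃_{τ ∈ F} C τ` (image
of the union of the supports under `Quotient.out ∘ Quotient.mk (QuotientGroup.rightRel C)`). For
`τ ∈ F` let `M q (a, τ) ∈ ℤC` be the element with `inc φ (M q (a, τ)) * single τ 1` = restriction of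
`m q a` to `C τ` (use `rs` of Wald/Supp and `suppIn_range`). Then `m q a = ∑ τ, inc φ (M q (a,τ)) *
single τ 1` and by A1 (5), (1): `dx y (m q a) = ∑ τ ∈ F, single (τ⁻¹ y) (inc φ (M q (a,τ)) *
single τ 1)`. The points `τ⁻¹ y` (`τ ∈ F`) are different (`τ⁻¹ y = τ'⁻¹ y` means `τ' τ⁻¹ ∈ C`). So
`∑ q, c q • dx y (m q a) = 0` for all `a` iff `∑ q, c q * inc φ (M q (a, τ)) = 0` for all `a`, `τ`
(`single τ 1` is a unit). KerFG for `ℤC` gives finitely many generators `κ_i` of the relations of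
`M` over `ℤC` (reindex `Q` and `A × F` by `Fin`), and `rflat_gr φ` (Wald/GrFlat, `RFlat` with the
linear map `Q →₀ ℤC → (A × F) →₀ ℤC` given by `M`) says that every relation over `ℤE` is a
`ℤE`-combination of `ℤC`-relations. `ρ i q = inc φ (κ_i q)`. -/
def S_RelOne : Prop :=
  ∀ (E X : Type) [Group E] [MulAction E X] (y : X),
    KerFG (MonoidAlgebra ℤ (MulAction.stabilizer E y)) →
    ∀ (A Q : Type) [Fintype A] [Fintype Q] (m : Q → A → MonoidAlgebra ℤ E),
      ∃ (T : ℕ) (ρ : Fin T → Q → MonoidAlgebra ℤ E),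
        (∀ i a, ∑ q, ρ i q • dx y (m q a) = 0) ∧
        ∀ c : Q → MonoidAlgebra ℤ E, (∀ a, ∑ q, c q • dx y (m q a) = 0) →
          ∃ z : Fin T → MonoidAlgebra ℤ E, ∀ q, c q = ∑ i, z i * ρ i q

/-- A5 (Rel). Relations of finitely many elements at arbitrary points are finitely generated.
PROOF. For `q` let `y q = Quotient.out (orbit of x q)` and `g q • y q = x q`. By A1 (4)
`dx (x q) (m q a) = single (g q) 1 • dx (y q) (m' q a)`, `m' q a = single (g q)⁻¹ 1 * m q a`. With
`c' q = c q * single (g q) 1` (a bijection of coefficient vectors, linear for left multiplication) the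
relation becomes `∑ q, c' q • dx (y q) (m' q a) = 0`. Let `O` be the finite set of the values `y q`.
Since `dx y r` is supported in the orbit of `y` (A1 (1) and additivity), the relation holds iff for
every `y ∈ O` the part `∑_{q : y q = y} c' q • dx y (m' q a)` is zero (apply `Finsupp.filter` to the
orbit of `y`; different elements of `O` are in different orbits). For `y ∈ O` apply A4 to the family
`{q // y q = y}` and extend the relations by `0`; the index set of the generators is the disjoint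
union over `y ∈ O` of the `Fin (T y)` (then reindex by `Fin`). Finally multiply the generators on the
right by `single (g q)⁻¹ 1` in the column `q`. -/
def S_Rel : Prop :=
  ∀ (E X : Type) [Group E] [MulAction E X],
    (∀ x : X, KerFG (MonoidAlgebra ℤ (MulAction.stabilizer E x))) →
    ∀ (A Q : Type) [Fintype A] [Fintype Q] (x : Q → X) (m : Q → A → MonoidAlgebra ℤ E),
      ∃ (T : ℕ) (ρ : Fin T → Q → MonoidAlgebra ℤ E),
        (∀ i a, ∑ q, ρ i q • dx (x q) (m q a) = 0) ∧
        ∀ c : Q → MonoidAlgebra ℤ E, (∀ a, ∑ q, c q • dx (x q) (m q a) = 0) →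
          ∃ z : Fin T → MonoidAlgebra ℤ E, ∀ q, c q = ∑ i, z i * ρ i q

/-- A6 (BdE). Exactness of the chain complex of the tree over `R = ℤE`.
PROOF. (1) `bd T z = 0`: for `g : E` the coefficients of `g` form `c_g : Ed →₀ ℤ` (mapRange) with
`c_g.mapDomain t = c_g.mapDomain o`, so `c_g = 0` by `acyc`, for all `g`. (2) `C v` = support of a
chain `c_v` from `conn`. Given `y` with `tot y = 0` put `z = y.sum fun v r => (c_v).mapRange
(fun n => (n : ℤ) • r)` (that is `∑ v, y v • (c_v with coefficients in R)`). `bd` of `c_v` with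
coefficients in `R` is `single v 1 - single root 1`, so `bd T z = ∑ v, y v • (single v 1 -
single root 1) = y - single root (tot y) = y`. -/
def S_BdE : Prop :=
  ∀ (E : Type) [Group E] (T : TreeAct E),
    (∀ z, bd T z = 0 → z = 0) ∧
    ∃ C : T.V → Finset T.Ed, ∀ y : T.V →₀ MonoidAlgebra ℤ E,
      Finsupp.linearCombination (MonoidAlgebra ℤ E) (fun _ : T.V => (1 : MonoidAlgebra ℤ E)) y = 0 →
      ∃ z, bd T z = y ∧ ∀ e, z e ≠ 0 → ∃ v, y v ≠ 0 ∧ e ∈ C v

/-- A7 (C1T). (C1) for groups acting on trees with coherent stabilizers.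
PROOF. Given `h`, `k` with `k h = 0`. Write `D l a = dx root (k l a) : V →₀ R`; finite set
`S ⊂ V` = union of the supports of all `D l a`; finite set `B = ⋃_{v ∈ S} C v ⊂ Ed` (A6).
STEP 1. By A5 for the action on `Ed`, matrix rows `m (a, e) b = h a b` and points `x (a, e) = e`,
`(a, e) ∈ Fin a × B`: the relations are finitely generated, by `ρ⁰ i (a, e)`, `i : Fin T⁰`. Put
`z⁰ i a = ∑ e ∈ B, single e (ρ⁰ i (a, e)) : Ed →₀ R`. Then `tw h (z⁰ i) = 0` (definition of `tw` and
`linearCombination` of a `single`), and: (*) every `z : Fin a → (Ed →₀ R)` with all `z a` supported in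
`B` and `tw h z = 0` is a combination `z a = ∑ i, w i • z⁰ i a`. By A2 (b) write `z⁰ i a =
∑ x ∈ S i, dx x (κ i x a)`; by A3 (4) `κ i x · h = 0`. Let `P` be the finite set of pairs `(i, x)`,
`x ∈ S i`; `κ p ∈ ker h`, `e p = x`; so every `z` as in (*) is `∑ p, w p • dx (e p) (κ p ·)`.
STEP 2. A5 for the action on `V` and the family indexed by `Fin s + P + P`: `(root, k l)`,
`(t (e p), κ p)`, `(o (e p), κ p)`: generators `(ρ¹ l, ρ² p, ρ³ p)` of the relations, `T` of them.
Claim: `k' = κ`, `ρ = ρ¹`, `ρ' = ρ² + ρ³` satisfy (C1). `k' h = 0`: done. `ρ k + ρ' k' = 0`: apply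
`tot` (A1 (6)) to the relation. Let `c` with `c k = 0`. `y a = ∑ l, c l • D l a` has `tot (y a) =
∑ l, c l * k l a = 0`, so `y a = bd T (z a)` with `z a` supported in `B` (A6). `bd (tw h z b) =
tw h (y) b = ∑ l, c l • dx root ((k h) l b) = 0` (A3 (3) for `f = t` and `f = o`, (2), (1)), so
`tw h z = 0` by A6 (1). By STEP 1 `z a = ∑ p, w p • dx (e p) (κ p a)`, and by A1 (7)
`∑ l, c l • dx root (k l a) - ∑ p, w p • dx (t (e p)) (κ p a) + ∑ p, w p • dx (o (e p)) (κ p a) = 0`.
By STEP 2 `(c, -w, w) = ∑ i, ζ i * (ρ¹, ρ², ρ³) i`, so `ζ ρ = c` and `ζ ρ' = -w + w = 0`. -/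
def S_C1T : Prop :=
  ∀ (E : Type) [Group E] (T : TreeAct E),
    (∀ v : T.V, KerFG (MonoidAlgebra ℤ (MulAction.stabilizer E v))) →
    (∀ e : T.Ed, KerFG (MonoidAlgebra ℤ (MulAction.stabilizer E e))) →
    C1 (MonoidAlgebra ℤ E)

/-! ### Part B: the tower of arbitrary length -/

/-- B1 (Add2). Additivity for a split exact sequence with projective quotient.
PROOF. Copy of Wald/AddLem (`add_lemma`), where the quotient is `R^r`. `D` is projective
(`Module.Projective.of_split s d`). Dual bases by `trLem_dual`: `q`, `f` for the finite set of the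
`i (tZ.y a)` and `i (p (tW.y a))` in `W`, `q'`, `f'` for the finite set of the `tD.y a` and
`d (tW.y a)` in `D`. `F = Sum.elim (f k ∘ i ∘ p) (f' k' ∘ d)`, `B = Sum.elim (i (p k)) (s k')`. The
matrix `tW.ev (B j) (F j')` is `fromBlocks MZ 0 C MD` with `MZ = tZ.ev (p k) (f k' ∘ i)`,
`MD = tD.ev k (f' k')`. `sameK_ev` three times. `1 - fromBlocks MZ 0 C MD = fromBlocks (1-MZ) 0 (-C)
(1-MD)` is a unit and `1 - MZ` is a unit, so `1 - MD` is a unit (multiply by the inverse of
`fromBlocks (1-MZ) 0 (-C) 1`, which is a unit by `K1Fun.isUnit_lower`, to get `fromBlocks 1 0 0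
(1-MD)` (a unit), whose lower right corner is invertible). Then `κ.lower`. -/
def S_Add2 : Prop :=
  ∀ (R Λ : Type) [Ring R] [Ring Λ] [Module R Λ] [IsScalarTower R Λ Λ] (Z W D : Type)
    [AddCommGroup Z] [Module R Z] [AddCommGroup W] [Module R W] [AddCommGroup D] [Module R D]
    [Module.Projective R W] (i : Z →ₗ[R] W) (d : W →ₗ[R] D) (s : D →ₗ[R] W) (p : W →ₗ[R] Z),
    (∀ x, d (s x) = x) → (∀ z, p (i z) = z) → (∀ w, i (p w) + s (d w) = w) →
    (∀ z, d (i z) = 0) → (∀ x, p (s x) = 0) →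
    ∀ (tW : Tr R Λ W W) (tZ : Tr R Λ Z Z) (tD : Tr R Λ D D),
      (∀ z f, tW.ev (i z) f = tZ.ev z (f ∘ₗ i)) → (∀ w f, tW.ev w (f ∘ₗ d) = tD.ev (d w) f) →
      IsUnit (1 - tW.mat) → IsUnit (1 - tZ.mat) →
      IsUnit (1 - tD.mat) ∧ ∀ (K : Type) [CommGroup K] (κ : K1Fun Λ K),
        κ.f (1 - tW.mat) = κ.f (1 - tZ.mat) * κ.f (1 - tD.mat)

/-- B2 (Step2). `Stage.step` with one more conclusion: `IW` maps `ker S'.d` onto `ker S.d`.
PROOF. Copy the proof of `Stage.step` (Wald/Step.lean; import it for the auxiliary lemmas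
`Step.collect`, `Step.lift`, ...). There `S'.J = Step.Pb I S.d = {p // I p.1 = S.d p.2}`,
`S'.d = Step.fstMap`, `IW = Step.sndMap`. For `w` with `S.d w = 0` take
`w' = single ⟨(0, w), _⟩ 1`: `S'.d w' = 0`, `IW w' = w`. -/
def S_Step2 : Prop :=
  ∀ (R Λ : Type) [Ring R] [Ring Λ] [Module R Λ] [IsScalarTower R Λ Λ], RFlat R Λ → C1F R Λ →
    ∀ (n : ℕ) (ν : (Fin n →₀ R) →ₗ[R] (Fin n →₀ Λ)) (S : Stage R Λ n ν) (B B' : Type)
      (h : (Fin n →₀ R) →ₗ[R] (B →₀ R)) (h' : (Fin n →₀ R) →ₗ[R] (B' →₀ R)),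
      (∀ x, h (S.e x) = 0) → (∀ x, h x = 0 → bc Λ h' (ν x) = 0) →
      ∃ (S' : Stage R Λ n ν) (I : (Fin S'.r →₀ R) →ₗ[R] (Fin S.r →₀ R))
        (P : (Fin S.r →₀ R) →ₗ[R] (Fin S'.r →₀ Λ)) (IW : (S'.J →₀ R) →ₗ[R] (S.J →₀ R))
        (τ : Tr R Λ (S.J →₀ R) (S'.J →₀ R)),
        (∀ x, h' (S'.e x) = 0) ∧ (∀ x, S.N x = bc Λ I (P x)) ∧ (∀ x, S'.N x = P (I x)) ∧
        (∀ w, S.d (IW w) = I (S'.d w)) ∧
        (∀ w, bc Λ S'.d (τ.app (emb R Λ S'.J) w) = P (S.d w)) ∧
        (∀ w, bc Λ IW (τ.app (emb R Λ S'.J) w) = S.t.app (emb R Λ S.J) w) ∧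
        S'.t = τ.pre IW ∧
        (∀ w, S.d w = 0 → ∃ w', S'.d w' = 0 ∧ IW w' = w)

/-- B3 (LvUp). One level up: an arrow `X' → X` (stage `i+1`, stage `i`) and a next level of `X'` give
a next level of `X` and an arrow of the next levels.
PROOF. Notation: `a.I : W → W'`, `a.τ : W' → F(W)`, `N'.d : W₁' → W'` onto `ker g'`. Let
`Pb = {p : (X.J →₀ R) × (N'.J₁ →₀ R) // X.g p.1 = 0 ∧ a.I p.1 = N'.d p.2}`, `J₁ = Pb`,
`d = linearCombination (fun p => p.1.1)`, `I₁ = linearCombination (fun p => p.1.2)` (compare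
`Step.Pb`, `Step.fstMap`, `Step.sndMap`). `range d = ker g`: if `g z = 0` then `g' (I z) = 0` (a.hI),
so `I z = N'.d w` for some `w` (N'.hd). `N'.d ∘ I₁ = a.I ∘ d`. LIFT (as `Step.lift`, by `exists_rep` for
the linear map `(z, w) ↦ (g z, I z - d' w)` on `(X.J ⊕ N'.J₁) →₀ R`): if `ζ ∈ F(W)`, `w ∈ F(W₁')`,
`bc g ζ = 0` and `bc I ζ = bc d' w`, there is `u ∈ F(R^(Pb))` with `bc d u = ζ`, `bc I₁ u = w`.
(1) `t0 = (a.τ).pre N'.d : Tr W₁' W` has `bc g (t0.app) = 0` (a.h3, since `g' (d' w) = 0`).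
`exists_tr_ker` (Wald/FG, with `X.g`, `X.e`, `X.hg`) gives `tz : Tr W₁' (ker g)` with the same values:
`a.τ.app (d' w) = ∑_c z_c(w) • ω_c`, `z_c = tz.φ c`, `ω_c = tz.lam c • emb (tz.y c)`, `bc g ω_c = 0`.
(2) `N'.t.app w = ∑_l φ_l(w) • η_l`, `η_l = lam_l • emb (y_l) ∈ F(W₁')`. `bc d' η_l ∈ F(ker g')`, and
`bc I ω_c ∈ F(ker g')` (a.hI, flatness: write `ω_c` as `lam • emb` of an element of the kernel: it is
of this form). Relation: `∑_c z_c(w) • bc I ω_c - ∑_l φ_l(w) • bc d' η_l = bc I (a.τ.app (d' w)) -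
bc d' (N'.t.app w) = X'.t.app (d' w) - X'.t.app (d' w) = 0` (a.h1, N'.ht). Apply `C1F` to `X'.g` and the
tuple `(bc I ω_c)_c, (bc d' η_l)_l` (index `Fin.append` as in Step): `k³ ∈ F(ker g')`, relations
`(ρ¹, ρ², ρ³)_j`, and `Step.coef` gives linear `ζ_j : W₁' → R` with `∑_j ζ_j(w) ρ¹_jc = z_c(w)`,
`∑_j ζ_j(w) ρ²_jl = - φ_l(w)`, `∑_j ζ_j(w) ρ³_j = 0`.
(3) Choose `χ_l ∈ F(ker g)` (that is `bc g χ_l = 0`) with `bc I χ_l = bc d' η_l`, and `κ_b` with
`bc g κ_b = 0`, `bc I κ_b = k³_b`: possible because `I` maps `ker g` onto `ker g'` (a.hIs; write the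
element of `F(ker g')` as `∑ l_a • emb x_a` by `exists_rep`, lift each `x_a`). Put `Ω_j = ∑_c ρ¹_jc •
ω_c + ∑_l ρ²_jl • χ_l + ∑_b ρ³_jb • κ_b`: `bc g Ω_j = 0`, `bc I Ω_j = 0 = bc d' 0`. LIFT: `A_j` with
`bc d A_j = Ω_j`, `bc I₁ A_j = 0`; `B_l` with `bc d B_l = χ_l`, `bc I₁ B_l = η_l`. `τ₁` := the finite
rank map `w ↦ ∑_j ζ_j(w) • A_j + ∑_l φ_l(w) • B_l` (`Step.exists_tr`). Then
`bc I₁ (τ₁ w) = ∑_l φ_l(w) • η_l = N'.t.app w` (a₁.h1), `bc d (τ₁ w) = ∑_j ζ_j(w) Ω_j + ∑_l φ_l(w) χ_l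
= ∑_c z_c(w) ω_c - ∑ φ_l(w) χ_l + 0 + ∑ φ_l(w) χ_l = a.τ.app (d' w)`. (**)
(4) `t₁ := τ₁.pre I₁`, so `t₁.app w = τ₁.app (I₁ w)`, `bc d (t₁.app w) = a.τ.app (d' (I₁ w)) =
a.τ.app (a.I (d w)) = X.t.app (d w)` by a.h2: this is `N.ht`. Arrow: a₁.I = I₁, a₁.hI: `d z = 0 →
d' (I₁ z) = I (d z) = 0`; a₁.hIs: for `w` with `d' w = 0` take `single ⟨(0, w), _⟩ 1`; a₁.h2 = rfl;
a₁.h3: if `d' w = 0` then `bc d (τ₁.app w) = a.τ.app 0 = 0` by (**). -/
def S_LvUp : Prop :=
  ∀ (R Λ : Type) [Ring R] [Ring Λ] [Module R Λ] [IsScalarTower R Λ Λ], RFlat R Λ → C1F R Λ →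
    ∀ (X' X : Lev R Λ), Arr X' X → ∀ N' : X'.Nx, ∃ N : X.Nx, Nonempty (Arr N'.lev N.lev)

/-- B4 (ArrStep). The invariant passes along an arrow.
PROOF. Induction on `p` (for all `X'`, `X`). `p = 0`: `ker X'.g`, `ker X.g` are projective
(`projective_iff_hasProjectiveDimensionLT_one`, `IsProjective.iff_projective`). This is the last part
of `nilVan_step` in Wald/NilVan.lean (from `exists_tr_ker hF hC S'.d S'.e S'.hd t0 ht0` to the end),
with `S.d, S.e, S.hd := X'.g, X'.e, X'.hg`, `S'.d, .. := X.g, ..`, `IW := a.I`, `τ := a.τ`,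
`g7 := a.h2`, `g6 := a.h1`, `ht0 := a.h3`, `hIW := a.hI`.
`p + 1`: `Inv κ (p+1) X'` gives `N'` with trivial `N'.t` and `Inv κ p N'.lev`. B3: `N`, arrow `a₁`.
`a₁.h2 : N.t = a₁.τ.pre a₁.I`. `N'.t.mat` and `(a₁.τ.post a₁.I).mat` have the same values (`sameK_of_ev`,
`ev_eq_of_app`, `bc_app`, a₁.h1), and `(a₁.τ.post a₁.I).mat = (a₁.τ.pre a₁.I).mat` by rfl
(`Tr.mat_post`): so `IsUnit (1 - N.t.mat) ∧ κ.f (1 - N.t.mat) = 1`. `ker N'.d` has projective
dimension at most `p`: short exact sequence `0 → ker N'.d → R^(J₁) → ker X'.g → 0`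
(`LinearMap.shortExact_shortComplexKer` for the map `R^(J₁) → ker X'.g` (codRestrict, onto by N'.hd),
whose kernel is `ker N'.d`; `hasProjectiveDimensionLT_X₁` as in Wald/Resol.lean). Same for `X`.
Induction hypothesis for `a₁`. -/
def S_ArrStep : Prop :=
  ∀ (R Λ : Type) [Ring R] [Ring Λ] [Module R Λ] [IsScalarTower R Λ Λ], RFlat R Λ → C1F R Λ →
    ∀ (K : Type) [CommGroup K] (κ : K1Fun Λ K) (p : ℕ) (X' X : Lev R Λ), Arr X' X →
      CategoryTheory.HasProjectiveDimensionLE (ModuleCat.of R (LinearMap.ker X'.g)) p →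
      CategoryTheory.HasProjectiveDimensionLE (ModuleCat.of R (LinearMap.ker X.g)) p →
      Inv κ p X' → Inv κ p X

/-- B5 (InvProj). If the kernel at the first level is projective, its determinant is trivial.
PROOF. Induction on `p`, for all `X`. `p = 0`: definition. `p + 1`: `N : X.Nx`. The map
`δ : R^(J₁) → ker X.g` (codRestrict of `N.d`) is onto, `ker X.g` is projective, so there is a section
`s`; `ker N.d = ker δ` is a direct summand of `R^(J₁)`, so projective; `p w = w - s (δ w)`. Let `tz` be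
a presentation on `ker X.g` with the values of `X.t`. `exists_tr_ker` for `N.d`, `X.g` (N.hd) and
`t0 = N.t.pre (ker N.d).subtype` gives `tz₁ : Tr (ker N.d) (ker N.d)` with the values of `N.t`
(`N.lev.ht`). Induction hypothesis for `N.lev` (kernel `ker N.d` projective): `IsUnit (1 - tz₁.mat)`,
`κ.f = 1`. B1 with `Z = ker N.d`, `W = R^(J₁)`, `D = ker X.g`, `i` = subtype, `d = δ`, `tW = N.t`,
`tZ = tz₁`, `tD = tz`: hypotheses `hZ` by `ev_eq_of_app`; `hD`: for `f : ker X.g → R` compare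
`N.t.post δ : Tr (R^(J₁)) (ker X.g)` and `tz.pre δ` by `ev_eq_of_app_sub` (Wald/Flat; both have the
value `X.t.app (N.d w)` in `Λ^(X.J)`: `bc_app` and N.ht on one side, the hypothesis on `tz` on the
other). So `IsUnit (1 - tz.mat)` and `1 = κ.f (1 - N.t.mat) = 1 * κ.f (1 - tz.mat)`. -/
def S_InvProj : Prop :=
  ∀ (R Λ : Type) [Ring R] [Ring Λ] [Module R Λ] [IsScalarTower R Λ Λ], RFlat R Λ → C1F R Λ →
    ∀ (K : Type) [CommGroup K] (κ : K1Fun Λ K) (p : ℕ) (X : Lev R Λ),
      Module.Projective R (LinearMap.ker X.g) → Inv κ p X →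
      ∀ tz : Tr R Λ (LinearMap.ker X.g) (LinearMap.ker X.g),
        (∀ z : LinearMap.ker X.g, tz.app (emb R Λ X.J ∘ₗ (LinearMap.ker X.g).subtype) z =
          X.t.app (emb R Λ X.J) (z : X.J →₀ R)) →
        IsUnit (1 - tz.mat) ∧ κ.f (1 - tz.mat) = 1

/-- B6 (NilVanP). Theorem N with kernels of projective dimension at most `p`.
PROOF. Copy of Wald/NilVan.lean (`nilVanish`) with the invariant: there is a stage `S` with
`∀ x, h (S.e x) = 0`, `SameK (matOf ν) (matOf S.N)`, `IsUnit (1 - S.t.mat) ∧ κ.f (1 - S.t.mat) = 1` and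
`Inv κ p (levOf S)`. Base (`J = Empty`): `Inv κ p` by induction on `p`: for `p = 0` the kernel is
subsingleton (`nilVan_sub`); for `p + 1` take `J₁ = Empty`, `d = 0`, the empty `t`, and note that the
next level again has `J = Empty` (prove: `∀ p X, IsEmpty X.J → Inv κ p X`). Step: B2 gives `S'`, `I`,
`P`, `IW`, `τ`; arrow `a : Arr (levOf S) (levOf S')` with `a.I = IW`, `a.τ = τ`: `hI` from
`S.d (IW w) = I (S'.d w)`, `hIs` = the new conclusion of B2, `h1`, `h2` as they are, `h3` from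
`bc S'.d (τ.app w) = P (S.d w)` and `P 0 = 0`. B4 applies: `ker S.d` has projective dimension at most
`p`, because `0 → ker S.d → R^(J) → ker S.e → 0` is exact, `R^(J)` is free and `ker S.e` has
projective dimension at most `p` (PDB, `S.e` is a map of finite free modules);
`hasProjectiveDimensionLT_X₁` needs LT (p+2) for the quotient: `hasProjectiveDimensionLT_of_ge`. End:
at `i = 0`, `S.e = 0`, `S.d` is onto `R^r`, `ker S.d` is projective (split by `s`), `exists_tr_ker` gives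
`tz`; B5 for `levOf S` replaces the hypothesis `hd` there; then `add_lemma` as in `nilVanish`. -/
def S_NilVanP : Prop :=
  ∀ (R Λ : Type) [Ring R] [Ring Λ] [Module R Λ] [IsScalarTower R Λ Λ], RFlat R Λ → C1F R Λ →
    ∀ p : ℕ, PDB R p → ∀ (n : ℕ) (ν : (Fin n →₀ R) →ₗ[R] (Fin n →₀ Λ)) (m : ℕ) (B : ℕ → Type)
      (h : ∀ i, (Fin n →₀ R) →ₗ[R] (B i →₀ R)), (∀ x, h 0 x = 0 → x = 0) → (∀ x, h m x = 0) →
      (∀ i x, h (i + 1) x = 0 → bc Λ (h i) (ν x) = 0) → IsUnit (1 - matOf ν) →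
      ∀ (K : Type) [CommGroup K] (κ : K1Fun Λ K), κ.f (1 - matOf ν) = 1

/-- B7 (NilGrP). Theorem N for group rings. PROOF. Copy of Wald/NilGr.lean (`nilVanish_gr`) and of
`nilV_of_c1` (Wald/NilV.lean) with `nilVanish` replaced by `S_NilVanP` (a hypothesis). -/
def S_NilGrP : Prop :=
  ∀ (E : Type) [Group E] (p : ℕ), C1 (MonoidAlgebra ℤ E) → PDB (MonoidAlgebra ℤ E) p → NilV E

/-- B8 (PdOf). Kernels of matrices over `ℤE` have projective dimension at most `cd E`.
PROOF. (1) CLAIM: if `M` and `N` are `ℤE`-modules, `M` and `N` projective over `ℤ`, and `N` has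
projective dimension at most `d`, then `M ⊗_ℤ N` with the diagonal action (`diagRep` of
Wald/DiagDefs, `k = ℤ`) has projective dimension at most `d`. Induction on `d`. `d = 0`: `N` is
projective: `diag_projective` (Wald/DiagProj). `d + 1`: `0 → K → P → N → 0` with `P = N →₀ ℤE` free;
`K` is `ℤ`-projective (direct summand of the free abelian group `P` over `ℤ`, as `N` is
`ℤ`-projective) and has projective dimension at most `d`; `0 → M ⊗ K → M ⊗ P → M ⊗ N → 0` is exact
(it splits over `ℤ`), the maps are `diag_map` (Wald/DiagMap); `hasProjectiveDimensionLT_X₃`. Model: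
Wald/Reso.lean, which does the same for a resolution of length 2 (`Reso_retr`, `Reso_inj`,
`Reso_tens`, `Reso_proj`), and Wald/Resol.lean (`Resol_sh`). (2) With `N = ℤ` (trivial) and
`diag_trivial`: every `ℤE`-module `M` which is `ℤ`-projective has projective dimension at most
`d = cd E`. (3) `e : R^a → R^b`: `range e` is `ℤ`-projective (proof in `pd1_of_cd`, Wald/KerP.lean,
`int_submodule_projective`), so of projective dimension at most `d`; `0 → ker e → R^a → range e → 0`:
`ker e` has projective dimension at most `d` (`hasProjectiveDimensionLT_X₁`, also for `d = 0`). -/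
def S_PdOf : Prop :=
  ∀ (E : Type) [Group E] (d : ℕ), CdLE d E → PDB (MonoidAlgebra ℤ E) d

/-- B9 (Fin). The final drop-in theorem. PROOF. Induction on `EdgeClass`: `cd2`: `nilV_of_cd` (Wald/
FinalHN); `tree`: B7 with A7 and B8; `loc`: `nilV_local` (Wald/NilV). -/
def S_Fin : Prop := ∀ (E : Type) [Group E], EdgeClass E → NilV E

end Pool.Agent.WaldT
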