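import Mathlib
import Pool.Agent.Lib.MP_8f66f0_al_WaldT.Spec
import Pool.Agent.Lib.MP_8f66f0_al_Wald.TrLem

/-! # MP_8f66f0_al, Theorem W for edge groups: additivity with projective quotient (helper7) -/

set_option autoImplicit false

namespace Pool.Agent.WaldT

open Pool.Agent.Wald Finsupp Matrix

section Add2
variable {Λ : Type} [Ring Λ]

/-- the lower right corner of a unit lower block matrix with invertible upper left corner is a
unit -/
private theorem isUnit_corner {n m : Type} [Fintype n] [DecidableEq n] [Fintype m] [DecidableEq m]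
    {A : Matrix n n Λ} {C : Matrix m n Λ} {D : Matrix m m Λ} (hA : IsUnit A)
    (h : IsUnit (fromBlocks A 0 C D)) : IsUnit D := by
  have u1 : IsUnit (fromBlocks A 0 C (1 : Matrix m m Λ)) :=
    K1Fun.isUnit_lower C hA isUnit_one
  obtain ⟨u, hu⟩ := u1
  obtain ⟨v, hv⟩ := h
  -- `fromBlocks A 0 C D = fromBlocks 1 0 0 D * fromBlocks A 0 C' 1`: use the other order
  have h1 : fromBlocks (1 : Matrix n n Λ) 0 0 D * fromBlocks A 0 0 (1 : Matrix m m Λ) =
      fromBlocks A 0 0 D := by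
    rw [fromBlocks_multiply]
    simp
  -- `fromBlocks A 0 C D = fromBlocks A 0 C 1 * fromBlocks 1 0 0 D`
  have h2 : fromBlocks A 0 C (1 : Matrix m m Λ) * fromBlocks (1 : Matrix n n Λ) 0 0 D =
      fromBlocks A 0 C D := by
    rw [fromBlocks_multiply]
    simp
  have h3 : IsUnit (fromBlocks (1 : Matrix n n Λ) 0 0 D) := by
    have h4 : fromBlocks (1 : Matrix n n Λ) 0 0 D = ((u⁻¹ * v : (Matrix (n ⊕ m) (n ⊕ m) Λ)ˣ) :
        Matrix (n ⊕ m) (n ⊕ m) Λ) := by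
      rw [Units.val_mul, hv, ← h2, ← hu, ← mul_assoc, Units.inv_mul, one_mul]
    rw [h4]
    exact Units.isUnit _
  obtain ⟨w, hw⟩ := h3
  obtain ⟨X, hX⟩ : ∃ X : Matrix (n ⊕ m) (n ⊕ m) Λ, X = ((w⁻¹ : (Matrix (n ⊕ m) (n ⊕ m) Λ)ˣ) :
    Matrix (n ⊕ m) (n ⊕ m) Λ) := ⟨_, rfl⟩
  have h5 : fromBlocks (1 : Matrix n n Λ) 0 0 D * X = 1 := by rw [← hw, hX, Units.mul_inv]
  have h6 : X * fromBlocks (1 : Matrix n n Λ) 0 0 D = 1 := by rw [← hw, hX, Units.inv_mul]
  rw [← fromBlocks_toBlocks X, fromBlocks_multiply, ← fromBlocks_one, fromBlocks_inj] at h5 h6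
  have h7 : D * X.toBlocks₂₂ = 1 := by
    have := h5.2.2.2
    rwa [Matrix.zero_mul, zero_add] at this
  have h8 : X.toBlocks₂₂ * D = 1 := by
    have := h6.2.2.2
    rwa [Matrix.mul_zero, zero_add] at this
  exact ⟨⟨D, X.toBlocks₂₂, h7, h8⟩, rfl⟩

theorem add2 : S_Add2 := by
  intro R Λ _ _ _ _ Z W D _ _ _ _ _ _ _ i d s p hds hpi hsum hdi hps tW tZ tD hZ hD uW uZ
  classical
  have : Module.Projective R D := Module.Projective.of_split s d (LinearMap.ext hds)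
  obtain ⟨q, f, hf⟩ := trLem_dual (R := R) (Finset.univ.image (fun a => i (tZ.y a)) ∪
    Finset.univ.image (fun a => i (p (tW.y a))))
  have hfZ : ∀ a, i (tZ.y a) = ∑ k : q, f k (i (tZ.y a)) • (k : W) := fun a =>
    hf _ (Finset.mem_union_left _ (Finset.mem_image_of_mem _ (Finset.mem_univ a)))
  have hfW : ∀ a, i (p (tW.y a)) = ∑ k : q, f k (i (p (tW.y a))) • (k : W) := fun a =>
    hf _ (Finset.mem_union_right _ (Finset.mem_image_of_mem _ (Finset.mem_univ a)))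
  obtain ⟨q', f', hf'⟩ := trLem_dual (R := R) (Finset.univ.image (fun a => tD.y a) ∪
    Finset.univ.image (fun a => d (tW.y a)))
  have hfD : ∀ a, tD.y a = ∑ k : q', f' k (tD.y a) • (k : D) := fun a =>
    hf' _ (Finset.mem_union_left _ (Finset.mem_image_of_mem _ (Finset.mem_univ a)))
  have hfV : ∀ a, d (tW.y a) = ∑ k : q', f' k (d (tW.y a)) • (k : D) := fun a =>
    hf' _ (Finset.mem_union_right _ (Finset.mem_image_of_mem _ (Finset.mem_univ a)))
  -- the dual basis of `W`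
  obtain ⟨F, hF⟩ : ∃ F : q ⊕ q' → (W →ₗ[R] R),
      F = Sum.elim (fun k => f k ∘ₗ i ∘ₗ p) fun c => f' c ∘ₗ d := ⟨_, rfl⟩
  obtain ⟨B, hB⟩ : ∃ B : q ⊕ q' → W,
      B = Sum.elim (fun k : q => i (p (k : W))) fun c : q' => s (c : D) := ⟨_, rfl⟩
  have hdual : ∀ a, tW.y a = ∑ j, F j (tW.y a) • B j := by
    intro a
    rw [Fintype.sum_sum_type, hF, hB]
    simp only [Sum.elim_inl, Sum.elim_inr, LinearMap.comp_apply]
    have h1 : ∑ k : q, f k (i (p (tW.y a))) • i (p (k : W)) = i (p (tW.y a)) := by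
      have h2 := congrArg (fun x => i (p x)) (hfW a)
      simp only [hpi, map_sum, map_smul] at h2
      exact h2.symm
    have h2 : ∑ c : q', f' c (d (tW.y a)) • s (c : D) = s (d (tW.y a)) := by
      conv_rhs => rw [hfV a]
      rw [map_sum]
      exact Finset.sum_congr rfl fun c _ => (map_smul _ _ _).symm
    rw [h1, h2, hsum]
  have hZdual : ∀ a, tZ.y a = ∑ k : q, (f k ∘ₗ i) (tZ.y a) • p (k : W) := by
    intro a
    have h1 := congrArg p (hfZ a)
    rw [hpi, map_sum] at h1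
    refine h1.trans (Finset.sum_congr rfl fun k _ => ?_)
    rw [map_smul, LinearMap.comp_apply]
  obtain ⟨u1, e1⟩ := (sameK_ev tW F B hdual).1 uW
  obtain ⟨u2, e2⟩ := (sameK_ev tZ (fun k => f k ∘ₗ i) (fun k : q => p (k : W)) hZdual).1 uZ
  obtain ⟨MZ, hMZ⟩ : ∃ MZ : Matrix q q Λ,
      MZ = fun k k' => tZ.ev (p ((k : q) : W)) (f k' ∘ₗ i) := ⟨_, rfl⟩
  rw [← hMZ] at u2 e2
  obtain ⟨MD, hMD⟩ : ∃ MD : Matrix q' q' Λ,
      MD = fun k k' => tD.ev ((k : q') : D) (f' k') := ⟨_, rfl⟩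
  obtain ⟨C, hC⟩ : ∃ C : Matrix q' q Λ,
      C = fun c k' => tW.ev (s ((c : q') : D)) (f k' ∘ₗ i ∘ₗ p) := ⟨_, rfl⟩
  have hM : (fun j j' => tW.ev (B j) (F j')) = fromBlocks MZ 0 C MD := by
    funext j j'
    rcases j with k | c <;> rcases j' with k' | c'
    · rw [fromBlocks_apply₁₁, hMZ, hB, hF]
      simp only [Sum.elim_inl]
      rw [hZ]
      have h1 : (f k' ∘ₗ i ∘ₗ p) ∘ₗ i = f k' ∘ₗ i := by
        ext z
        simp only [LinearMap.comp_apply, hpi]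
      rw [h1]
    · rw [fromBlocks_apply₁₂, hB, hF]
      simp only [Sum.elim_inl, Sum.elim_inr]
      rw [hD, hdi]
      unfold Tr.ev
      exact Finset.sum_eq_zero fun a _ => by rw [map_zero, zero_smul]
    · rw [fromBlocks_apply₂₁, hC, hB, hF]
      simp only [Sum.elim_inl, Sum.elim_inr]
    · rw [fromBlocks_apply₂₂, hB, hF, hMD]
      simp only [Sum.elim_inr]
      rw [hD, hds]
  rw [hM] at u1 e1
  have h1 : (1 : Matrix (q ⊕ q') (q ⊕ q') Λ) - fromBlocks MZ 0 C MD =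
      fromBlocks (1 - MZ) 0 (-C) (1 - MD) := by
    rw [← fromBlocks_one, sub_eq_add_neg, fromBlocks_neg, fromBlocks_add, ← sub_eq_add_neg, neg_zero,
      add_zero, zero_add, ← sub_eq_add_neg]
  rw [h1] at e1 u1
  have uMD : IsUnit (1 - MD) := isUnit_corner u2 u1
  obtain ⟨u3, e3⟩ := (sameK_ev tD f' (fun k : q' => (k : D)) hfD).2 (hMD ▸ uMD)
  refine ⟨u3, fun K _ κ => ?_⟩
  rw [← e1 K κ, ← e2 K κ, e3 K κ, ← hMD]
  exact κ.lower _ _ _ u2 uMD

end Add2

end Pool.Agent.WaldT
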