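import Mathlib
import Pool.Agent.Lib.MP_8f66f0_al_WaldT.Spec
import Pool.Agent.Lib.MP_8f66f0_al_Wald.K1Lem
import Pool.Agent.Lib.MP_8f66f0_al_Wald.TrLem
import Pool.Agent.Lib.MP_8f66f0_al_Wald.Flat
import Pool.Agent.Lib.MP_8f66f0_al_Wald.FG

/-! The invariant passes along an arrow. -/

set_option autoImplicit false

namespace Pool.Agent.WaldT

open Pool.Agent.Wald Finsupp CategoryTheory

section ArrStep

private theorem arrStep_sh {R : Type} [Ring R] {P M : Type} [AddCommGroup P] [Module R P]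
    [AddCommGroup M] [Module R M] [Module.Projective R P] (f : P →ₗ[R] M)
    (hf : Function.Surjective f) (n : ℕ)
    (hM : HasProjectiveDimensionLT (ModuleCat.of R M) (n + 2)) :
    HasProjectiveDimensionLT (ModuleCat.of R (LinearMap.ker f)) (n + 1) := by
  have h1 := LinearMap.shortExact_shortComplexKer hf
  have hP : Projective (ModuleCat.of R P) := (IsProjective.iff_projective P).mp inferInstance
  have h2 : HasProjectiveDimensionLT (ModuleCat.of R P) (n + 1) :=
    hasProjectiveDimensionLT_of_ge _ 1 _ (by omega)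
  exact h1.hasProjectiveDimensionLT_X₁ (n + 1) h2 hM

private theorem arrStep_pd {R Λ : Type} [Ring R] [Ring Λ] [Module R Λ] [IsScalarTower R Λ Λ]
    (X : Lev R Λ) (N : X.Nx) (p : ℕ)
    (hp : HasProjectiveDimensionLE (ModuleCat.of R (LinearMap.ker X.g)) (p + 1)) :
    HasProjectiveDimensionLE (ModuleCat.of R (LinearMap.ker N.lev.g)) p := by
  have hmem : ∀ x, N.d x ∈ LinearMap.ker X.g := by
    intro x
    rw [← N.hd]
    exact ⟨x, rfl⟩
  set d' : (N.J₁ →₀ R) →ₗ[R] LinearMap.ker X.g := N.d.codRestrict _ hmem with hd'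
  have hsurj : Function.Surjective d' := by
    rintro ⟨y, hy⟩
    have hy' : y ∈ LinearMap.range N.d := by
      rw [N.hd]
      exact hy
    obtain ⟨x, rfl⟩ := hy'
    exact ⟨x, rfl⟩
  have h2 : HasProjectiveDimensionLT (ModuleCat.of R (LinearMap.ker d')) (p + 1) :=
    arrStep_sh d' hsurj p hp
  have h4 : LinearMap.ker d' = LinearMap.ker N.d := LinearMap.ker_codRestrict _ _ _
  rw [h4] at h2
  exact h2

private theorem arrStep_zero {R Λ : Type} [Ring R] [Ring Λ] [Module R Λ] [IsScalarTower R Λ Λ]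
    (hF : RFlat R Λ) (hC : C1F R Λ) {K : Type} [CommGroup K] (κ : K1Fun Λ K) (X' X : Lev R Λ)
    (a : Arr X' X) (hZ' : Module.Projective R (LinearMap.ker X'.g))
    (hZ : Module.Projective R (LinearMap.ker X.g)) (hd : Inv κ 0 X') : Inv κ 0 X := by
  intro tz htz
  have ht0 : ∀ z : LinearMap.ker X'.g,
      bc Λ X.g ((a.τ.pre (LinearMap.ker X'.g).subtype).app (emb R Λ X.J) z) = 0 := by
    intro z
    exact a.h3 ((LinearMap.ker X'.g).subtype z) z.2
  let t0 : Tr R Λ (LinearMap.ker X'.g) (X.J →₀ R) := a.τ.pre (LinearMap.ker X'.g).subtype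
  obtain ⟨τz, hτz⟩ := exists_tr_ker hF hC X.g X.e X.hg t0 ht0
  have hIW : ∀ w : LinearMap.ker X.g,
      (a.I ∘ₗ (LinearMap.ker X.g).subtype) w ∈ LinearMap.ker X'.g := by
    intro w
    exact a.hI _ w.2
  let IWz : LinearMap.ker X.g →ₗ[R] LinearMap.ker X'.g :=
    (a.I ∘ₗ (LinearMap.ker X.g).subtype).codRestrict (LinearMap.ker X'.g) hIW
  have e1 : SameK (τz.pre IWz).mat tz.mat := by
    refine sameK_of_ev _ _ fun x f => ev_eq_of_app_sub hF (LinearMap.ker X.g) _ _ x ?_ f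
    rw [htz, a.h2]
    exact hτz (IWz x)
  have e2 := hd (τz.post IWz) (by
    intro z
    have e3 := bc_app (Λ := Λ) a.I (τz.post (LinearMap.ker X.g).subtype) z
    have e4 : (τz.post (LinearMap.ker X.g).subtype).app (emb R Λ X.J) z =
        a.τ.app (emb R Λ X.J) (z : X'.J →₀ R) := hτz z
    rw [e4, a.h1] at e3
    exact e3.symm)
  obtain ⟨e5, e6⟩ := e2
  obtain ⟨e7, e8⟩ := e1 e5
  exact ⟨e7, (e8 K κ).trans e6⟩

theorem arrStep (h1 : S_LvUp) : S_ArrStep := by
  intro R Λ _ _ _ _ hF hC K _ κ p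
  induction p with
  | zero =>
    intro X' X a hp' hp hI
    have hZ' : Module.Projective R (LinearMap.ker X'.g) :=
      (IsProjective.iff_projective _).mpr (projective_iff_hasProjectiveDimensionLT_one.mpr hp')
    have hZ : Module.Projective R (LinearMap.ker X.g) :=
      (IsProjective.iff_projective _).mpr (projective_iff_hasProjectiveDimensionLT_one.mpr hp)
    exact arrStep_zero hF hC κ X' X a hZ' hZ hI
  | succ p ih =>
    intro X' X a hp' hp hI
    obtain ⟨N', ⟨hc1, hc2⟩, hI'⟩ := hI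
    obtain ⟨N, ⟨a₁⟩⟩ := h1 R Λ hF hC X' X a N'
    refine ⟨N, ?_, ih N'.lev N.lev a₁ (arrStep_pd X' N' p hp') (arrStep_pd X N p hp) hI'⟩
    have e1 : SameK N'.lev.t.mat (a₁.τ.post a₁.I).mat := by
      refine sameK_of_ev N'.lev.t (a₁.τ.post a₁.I) fun x f => ev_eq_of_app _ _ x ?_ f
      rw [← bc_app, a₁.h1]
    obtain ⟨e2, e3⟩ := e1 hc1
    have e4 : N.t = a₁.τ.pre a₁.I := a₁.h2
    rw [e4]
    exact ⟨e2, (e3 K κ).trans hc2⟩

end ArrStep

end Pool.Agent.WaldT
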