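import Pool.Agent.Lib.MP_8f66f0_al_WaldT.Spec

/-! A6 (BdE): exactness of the chain complex of the tree over `ℤE` (helper33). -/

set_option autoImplicit false

namespace Pool.Agent.WaldT

open Pool.Agent.Wald Finsupp

/-- a chain with integral coefficients, multiplied by an element of a ring -/
private noncomputable def bdExt {X R : Type} [Ring R] (r : R) : (X →₀ ℤ) →+ (X →₀ R) :=
  Finsupp.mapRange.addMonoidHom (zmultiplesHom R r)

private theorem bdExt_apply {X R : Type} [Ring R] (r : R) (c : X →₀ ℤ) (x : X) :
    bdExt r c x = c x • r := rfl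

private theorem bdExt_single {X R : Type} [Ring R] (r : R) (x : X) :
    bdExt r (single x 1) = single x r := by
  have h : bdExt r (single x (1 : ℤ)) = single x ((1 : ℤ) • r) :=
    Finsupp.mapRange_single (f := zmultiplesHom R r) (hf := map_zero _)
  rw [h, one_smul]

private theorem bdExt_mapDomain {X Y R : Type} [Ring R] (f : X → Y) (r : R) (c : X →₀ ℤ) :
    (bdExt r c).mapDomain f = bdExt r (c.mapDomain f) :=
  Finsupp.mapDomain_mapRange f c (zmultiplesHom R r) (map_zero _) (map_add _)

/-- a coefficient -/
private noncomputable def bdCo {E : Type} [Group E] (g : E) : MonoidAlgebra ℤ E →+ ℤ :=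
  (Finsupp.applyAddHom g).comp MonoidAlgebra.coeffAddEquiv.toAddMonoidHom

private theorem bdCo_apply {E : Type} [Group E] (g : E) (r : MonoidAlgebra ℤ E) :
    bdCo g r = r.coeff g := rfl

private theorem bd_apply {E : Type} [Group E] (T : TreeAct E) (z : T.Ed →₀ MonoidAlgebra ℤ E) :
    bd T z = z.mapDomain T.t - z.mapDomain T.o := rfl

theorem bdE : S_BdE := by
  classical
  intro E _ T
  refine ⟨fun z hz => ?_, ?_⟩
  · rw [bd_apply] at hz
    have h1 := sub_eq_zero.1 hz
    have key : ∀ g : E, Finsupp.mapRange (bdCo g) (map_zero _) z = 0 := fun g => T.acyc _ (by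
      rw [Finsupp.mapDomain_mapRange _ _ _ _ (map_add _),
        Finsupp.mapDomain_mapRange _ _ _ _ (map_add _), h1])
    refine Finsupp.ext fun e => MonoidAlgebra.ext (Finsupp.ext fun g => ?_)
    have h2 := DFunLike.congr_fun (key g) e
    rw [Finsupp.mapRange_apply, bdCo_apply] at h2
    exact h2
  · choose c hc using T.conn
    refine ⟨fun v => (c v).support, fun y hy => ⟨y.sum fun v r => bdExt r (c v), ?_, ?_⟩⟩
    · rw [Finsupp.sum, map_sum]
      have h1 : ∀ v ∈ y.support, bd T (bdExt (y v) (c v)) = single v (y v) - single T.root (y v) :=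
        fun v _ => by
          rw [bd_apply, bdExt_mapDomain, bdExt_mapDomain, ← map_sub, hc, map_sub, bdExt_single,
            bdExt_single]
      rw [Finset.sum_congr rfl h1, Finset.sum_sub_distrib]
      have h2 : ∑ v ∈ y.support, single v (y v) = y := Finsupp.sum_single y
      have h3 : ∑ v ∈ y.support, single T.root (y v) = single T.root (∑ v ∈ y.support, y v) :=
        (map_sum (Finsupp.singleAddHom T.root) y y.support).symm
      have h4 : ∑ v ∈ y.support, y v = 0 := by
        rw [Finsupp.linearCombination_apply, Finsupp.sum] at hy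
        rw [← hy]
        exact Finset.sum_congr rfl fun v _ => by rw [smul_eq_mul, mul_one]
      rw [h2, h3, h4, single_zero, sub_zero]
    · intro e he
      by_contra hcon
      push Not at hcon
      apply he
      rw [Finsupp.sum, Finsupp.finsetSum_apply]
      refine Finset.sum_eq_zero fun v hv => ?_
      have h5 := hcon v (Finsupp.mem_support_iff.1 hv)
      rw [bdExt_apply, Finsupp.notMem_support_iff.1 h5, zero_smul]

end Pool.Agent.WaldT
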