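import Mathlib
import Pool.Agent.Lib.MP_8f66f0_al_WaldT.Spec

/-! A7: condition (C1) for groups which act on trees with coherent stabilizers. -/

set_option autoImplicit false

namespace Pool.Agent.WaldT

open Pool.Agent.Wald Finsupp

private noncomputable abbrev C1T_tot {E : Type} [Group E] (X : Type) :
    (X →₀ MonoidAlgebra ℤ E) →ₗ[MonoidAlgebra ℤ E] MonoidAlgebra ℤ E :=
  Finsupp.linearCombination (MonoidAlgebra ℤ E) (fun _ : X => (1 : MonoidAlgebra ℤ E))

private theorem C1T_tw_sub {E X : Type} [Group E] [MulAction E X] {A B : Type} [Fintype A]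
    (h : A → B → MonoidAlgebra ℤ E) (z z' : A → (X →₀ MonoidAlgebra ℤ E)) (b : B) :
    tw h (fun a => z a - z' a) b = tw h z b - tw h z' b := by
  unfold tw
  rw [← Finset.sum_sub_distrib]
  exact Finset.sum_congr rfl fun a _ => map_sub _ _ _

/-- STEP 1 of the proof. -/
private theorem C1T_step1 (h2 : S_DxSl) (h3 : S_Tw) (h4 : S_Rel) {E : Type} [Group E]
    (T : TreeAct E)
    (hE : ∀ e : T.Ed, KerFG (MonoidAlgebra ℤ (MulAction.stabilizer E e))) (a b : ℕ)
    (h : Matrix (Fin a) (Fin b) (MonoidAlgebra ℤ E)) (B : Finset T.Ed) :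
    ∃ (P : Type) (_ : Fintype P) (e : P → T.Ed) (κ : P → Fin a → MonoidAlgebra ℤ E),
      (∀ p j, ∑ i, κ p i * h i j = 0) ∧
      ∀ z : Fin a → (T.Ed →₀ MonoidAlgebra ℤ E), (∀ i x, z i x ≠ 0 → x ∈ B) →
        (∀ j, tw h z j = 0) → ∃ w : P → MonoidAlgebra ℤ E,
          ∀ i, z i = ∑ p, w p • dx (e p) (κ p i) := by
  classical
  obtain ⟨T0, ρ, r1, r2⟩ := h4 E T.Ed hE (Fin b) (Fin a × B) (fun q => q.2.1) (fun q j => h q.1 j)
  let z0 : Fin T0 → Fin a → (T.Ed →₀ MonoidAlgebra ℤ E) :=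
    fun t i => ∑ e : B, single e.1 (ρ t (i, e))
  have htw : ∀ t j, tw h (z0 t) j = 0 := by
    intro t j
    have h5 := r1 t j
    rw [Fintype.sum_prod_type] at h5
    unfold tw
    rw [← h5]
    refine Finset.sum_congr rfl fun i _ => ?_
    rw [map_sum]
    refine Finset.sum_congr rfl fun e _ => ?_
    rw [Finsupp.linearCombination_single]
  have hsl : ∀ t, ∃ (S : Finset T.Ed) (κ : T.Ed → Fin a → MonoidAlgebra ℤ E),
      ∀ i, z0 t i = ∑ x ∈ S, dx x (κ x i) := fun t => (h2 E T.Ed).2 (Fin a) (z0 t)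
  choose S κ hκ using hsl
  have hκh : ∀ t, ∀ x ∈ S t, ∀ j, ∑ i, κ t x i * h i j = 0 := by
    intro t
    refine (h3 E T.Ed T.Ed (Fin a) (Fin b) h).2.2.2 (S t) (κ t) ?_
    intro j
    rw [← htw t j]
    congr 1
    funext i
    exact (hκ t i).symm
  refine ⟨Σ t : Fin T0, {x // x ∈ S t}, inferInstance, fun p => p.2.1,
    fun p i => κ p.1 p.2.1 i, fun p j => hκh p.1 p.2.1 p.2.2 j, ?_⟩
  intro z hzB hz
  have hzs : ∀ i, z i = ∑ e : B, single e.1 (z i e.1) := by
    intro i
    ext1 x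
    rw [Finsupp.finset_sum_apply]
    by_cases hx : x ∈ B
    · rw [Finset.sum_eq_single_of_mem (⟨x, hx⟩ : B) (Finset.mem_univ _)]
      · rw [Finsupp.single_eq_same]
      · intro e _ he
        refine Finsupp.single_eq_of_ne ?_
        intro h6
        exact he (Subtype.ext h6.symm)
    · have h6 : z i x = 0 := by
        by_contra h7
        exact hx (hzB i x h7)
      rw [h6]
      refine (Finset.sum_eq_zero fun e _ => ?_).symm
      refine Finsupp.single_eq_of_ne ?_
      intro h7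
      exact hx (h7 ▸ e.2)
  obtain ⟨w, hw⟩ := r2 (fun q => z q.1 q.2.1) (by
    intro j
    rw [Fintype.sum_prod_type]
    rw [← hz j]
    unfold tw
    refine Finset.sum_congr rfl fun i _ => ?_
    conv_rhs => rw [hzs i]
    rw [map_sum]
    refine Finset.sum_congr rfl fun e _ => ?_
    rw [Finsupp.linearCombination_single])
  refine ⟨fun p => w p.1, fun i => ?_⟩
  have h8 : z i = ∑ t, w t • z0 t i := by
    rw [hzs i]
    simp only [z0, Finset.smul_sum]
    rw [Finset.sum_comm]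
    refine Finset.sum_congr rfl fun e _ => ?_
    have h9 : z i e.1 = ∑ t, w t * ρ t (i, e) := hw (i, e)
    rw [h9, Finsupp.single_finsetSum]
    refine Finset.sum_congr rfl fun t _ => ?_
    rw [Finsupp.smul_single, smul_eq_mul]
  rw [h8, Fintype.sum_sigma]
  refine Finset.sum_congr rfl fun t _ => ?_
  rw [hκ t i, Finset.smul_sum]
  exact (Finset.sum_coe_sort (S t) (fun x => w t • dx x (κ t x i))).symm

theorem c1T (h1 : S_DxA) (h2 : S_DxSl) (h3 : S_Tw) (h4 : S_Rel) (h5 : S_BdE) : S_C1T := by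
  classical
  intro E _ T hV hE a b s h k hkh
  obtain ⟨hbd, C, hC⟩ := h5 E T
  have tot_dx : ∀ (x : T.V) (r : MonoidAlgebra ℤ E), C1T_tot T.V (dx x r) = r :=
    fun x r => (h1 E T.V T.V).2.2.2.2.2.1 x r
  have map_t : ∀ (x : T.Ed) (r : MonoidAlgebra ℤ E), (dx x r).mapDomain T.t = dx (T.t x) r :=
    fun x r => (h1 E T.Ed T.V).2.2.2.2.2.2 T.t T.t_smul x r
  have map_o : ∀ (x : T.Ed) (r : MonoidAlgebra ℤ E), (dx x r).mapDomain T.o = dx (T.o x) r :=
    fun x r => (h1 E T.Ed T.V).2.2.2.2.2.2 T.o T.o_smul x r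
  have dx0 : ∀ x : T.V, dx x (0 : MonoidAlgebra ℤ E) = 0 := (h1 E T.V T.V).2.1
  let D : Fin s → Fin a → (T.V →₀ MonoidAlgebra ℤ E) := fun l i => dx T.root (k l i)
  let S : Finset T.V := Finset.univ.biUnion fun p : Fin s × Fin a => (D p.1 p.2).support
  obtain ⟨P, hP, e, κ, hκ, hz⟩ := C1T_step1 h2 h3 h4 T hE a b h (S.biUnion C)
  obtain ⟨N, ρ, r1, r2⟩ := h4 E T.V hV (Fin a) (Fin s ⊕ (P ⊕ P))
    (Sum.elim (fun _ => T.root) (Sum.elim (fun p => T.t (e p)) (fun p => T.o (e p))))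
    (Sum.elim (fun l => k l) (Sum.elim κ κ))
  let ε : P ≃ Fin (Fintype.card P) := Fintype.equivFin P
  refine ⟨Fintype.card P, fun l i => κ (ε.symm l) i, N, fun t l => ρ t (Sum.inl l),
    fun t l => ρ t (Sum.inr (Sum.inl (ε.symm l))) + ρ t (Sum.inr (Sum.inr (ε.symm l))),
    ?_, ?_, ?_⟩
  · ext1 l j
    exact hκ (ε.symm l) j
  · ext1 t i
    have h6 := congrArg (C1T_tot T.V) (r1 t i)
    rw [map_sum, map_zero] at h6
    simp only [map_smul, tot_dx, smul_eq_mul, Fintype.sum_sum_type, Sum.elim_inl,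
      Sum.elim_inr] at h6
    rw [Matrix.add_apply, Matrix.mul_apply, Matrix.mul_apply, Matrix.zero_apply]
    rw [← h6]
    congr 1
    rw [← Finset.sum_add_distrib, ← Equiv.sum_comp ε.symm]
    exact Finset.sum_congr rfl fun l _ => add_mul _ _ _
  · intro c hc
    let y : Fin a → (T.V →₀ MonoidAlgebra ℤ E) := fun i => ∑ l, c l • D l i
    have hy0 : ∀ i, C1T_tot T.V (y i) = 0 := by
      intro i
      have h6 := congrFun hc i
      rw [Pi.zero_apply] at h6
      rw [← h6]
      simp only [y, D, map_sum, map_smul, tot_dx, smul_eq_mul]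
      rfl
    choose z hz1 hz2 using fun i => hC (y i) (hy0 i)
    have hyS : ∀ i v, y i v ≠ 0 → v ∈ S := by
      intro i v hv
      by_contra h6
      apply hv
      simp only [y, Finsupp.finset_sum_apply, Finsupp.smul_apply]
      refine Finset.sum_eq_zero fun l _ => ?_
      have h7 : D l i v = 0 := by
        by_contra h8
        exact h6 (Finset.mem_biUnion.2 ⟨(l, i), Finset.mem_univ _,
          Finsupp.mem_support_iff.2 h8⟩)
      rw [h7, smul_zero]
    have hbdd : ∀ w : T.Ed →₀ MonoidAlgebra ℤ E, bd T w = w.mapDomain T.t - w.mapDomain T.o :=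
      fun w => rfl
    have hTt := (h3 E T.Ed T.V (Fin a) (Fin b) h).2.2.1 T.t T.t_smul z
    have hTo := (h3 E T.Ed T.V (Fin a) (Fin b) h).2.2.1 T.o T.o_smul z
    have htw : ∀ j, tw h z j = 0 := by
      intro j
      refine hbd _ ?_
      rw [hbdd, ← hTt j, ← hTo j, ← C1T_tw_sub]
      have h6 : (fun i => (z i).mapDomain T.t - (z i).mapDomain T.o) =
          fun i => ∑ l, c l • dx T.root (k l i) := by
        funext i
        exact hz1 i
      rw [h6, (h3 E T.V T.V (Fin a) (Fin b) h).2.1 (Fin s) c (fun l i => dx T.root (k l i)) j]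
      refine Finset.sum_eq_zero fun l _ => ?_
      have h7 : ∑ i, k l i * h i j = 0 := congrFun (congrFun hkh l) j
      rw [(h3 E T.V T.V (Fin a) (Fin b) h).1 T.root (k l) j, h7, dx0, smul_zero]
    obtain ⟨w, hw⟩ := hz z (fun i x hx => by
      obtain ⟨v, hv, hxv⟩ := hz2 i x hx
      exact Finset.mem_biUnion.2 ⟨v, hyS i v hv, hxv⟩) htw
    obtain ⟨ζ, hζ⟩ := r2 (Sum.elim c (Sum.elim (fun p => - w p) w)) (by
      intro i
      rw [Fintype.sum_sum_type, Fintype.sum_sum_type]
      simp only [Sum.elim_inl, Sum.elim_inr, neg_smul, Finset.sum_neg_distrib]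
      have h6 : ∑ l, c l • dx T.root (k l i) = (z i).mapDomain T.t - (z i).mapDomain T.o :=
        (hz1 i).symm
      have h7 : (z i).mapDomain T.t = ∑ p, w p • dx (T.t (e p)) (κ p i) := by
        rw [hw i, Finsupp.mapDomain_finset_sum]
        refine Finset.sum_congr rfl fun p _ => ?_
        rw [Finsupp.mapDomain_smul, map_t]
      have h8 : (z i).mapDomain T.o = ∑ p, w p • dx (T.o (e p)) (κ p i) := by
        rw [hw i, Finsupp.mapDomain_finset_sum]
        refine Finset.sum_congr rfl fun p _ => ?_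
        rw [Finsupp.mapDomain_smul, map_o]
      rw [h6, h7, h8]
      abel)
    refine ⟨ζ, ?_, ?_⟩
    · funext l
      exact (hζ (Sum.inl l)).symm
    · funext l
      have h6 := hζ (Sum.inr (Sum.inl (ε.symm l)))
      have h7 := hζ (Sum.inr (Sum.inr (ε.symm l)))
      simp only [Sum.elim_inl, Sum.elim_inr] at h6 h7
      change ∑ t, ζ t * (ρ t (Sum.inr (Sum.inl (ε.symm l))) +
        ρ t (Sum.inr (Sum.inr (ε.symm l)))) = 0
      simp only [mul_add, Finset.sum_add_distrib]
      rw [← h6, ← h7, neg_add_cancel]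

end Pool.Agent.WaldT
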