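import Pool.Agent.Lib.MP_8f66f0_al_WaldT.Spec

/-!
# WaldT, module DxSl: slices of the twisted module
-/

set_option autoImplicit false

namespace Pool.Agent.WaldT

open Pool.Agent.Wald Finsupp

namespace DxSlAux

variable {E X : Type} [Group E] [MulAction E X]

open Classical in
theorem dx_coeff (x x' : X) (r : MonoidAlgebra ℤ E) (g : E) :
    ((dx x r) x').coeff g = if g • x' = x then r.coeff g else 0 := by
  have h1 : ((dx x r) x').coeff g =
      ∑ h ∈ r.coeff.support, if h⁻¹ • x = x' ∧ h = g then r.coeff h else 0 := by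
    unfold dx
    unfold Finsupp.sum
    rw [Finsupp.finsetSum_apply, MonoidAlgebra.coeff_sum, Finsupp.finsetSum_apply]
    refine Finset.sum_congr rfl fun h _ => ?_
    show ((Finsupp.single (h⁻¹ • x) (MonoidAlgebra.single h (r.coeff h)) :
      X →₀ MonoidAlgebra ℤ E) x').coeff g = _
    by_cases h2 : h⁻¹ • x = x'
    · rw [h2, Finsupp.single_eq_same, MonoidAlgebra.coeff_single]
      by_cases h3 : h = g
      · rw [h3, Finsupp.single_eq_same, if_pos ⟨rfl, rfl⟩]
      · rw [Finsupp.single_eq_of_ne (Ne.symm h3), if_neg fun h4 => h3 h4.2]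
    · rw [Finsupp.single_eq_of_ne (Ne.symm h2), if_neg fun h4 => h2 h4.1]
      rfl
  rw [h1]
  by_cases h5 : g • x' = x
  · rw [if_pos h5]
    have h6 : g⁻¹ • x = x' := by rw [← h5, inv_smul_smul]
    by_cases h7 : g ∈ r.coeff.support
    · rw [Finset.sum_eq_single g]
      · rw [if_pos ⟨h6, rfl⟩]
      · intro b _ hb
        rw [if_neg fun h8 => hb h8.2]
      · intro h9
        exact absurd h7 h9
    · rw [Finset.sum_eq_zero]
      · exact (Finsupp.notMem_support_iff.1 h7).symm
      · intro b hb
        rw [if_neg]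
        rintro ⟨-, rfl⟩
        exact h7 hb
  · rw [if_neg h5]
    refine Finset.sum_eq_zero fun b _ => ?_
    rw [if_neg]
    rintro ⟨h10, rfl⟩
    exact h5 (by rw [← h10, smul_inv_smul])

open Classical in
theorem sum_coeff (S : Finset X) (r : X → MonoidAlgebra ℤ E) (x' : X) (g : E) :
    ((∑ x ∈ S, dx x (r x)) x').coeff g = if g • x' ∈ S then (r (g • x')).coeff g else 0 := by
  rw [Finsupp.finsetSum_apply, MonoidAlgebra.coeff_sum, Finsupp.finsetSum_apply]
  have h1 : ∀ x ∈ S, ((dx x (r x)) x').coeff g =
      if g • x' = x then (r x).coeff g else 0 := fun x _ => dx_coeff x x' (r x) g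
  rw [Finset.sum_congr rfl h1, Finset.sum_ite_eq]

/-- The slice at `x` of an element of the twisted module. -/
noncomputable def slice (z : X →₀ MonoidAlgebra ℤ E) (x : X) : MonoidAlgebra ℤ E := by
  classical
  exact MonoidAlgebra.ofCoeff (Finsupp.onFinset
    (z.support.biUnion fun x' => (z x').coeff.support)
    (fun g => (z (g⁻¹ • x)).coeff g) (by
      intro g hg
      rw [Finset.mem_biUnion]
      refine ⟨g⁻¹ • x, ?_, Finsupp.mem_support_iff.2 hg⟩
      rw [Finsupp.mem_support_iff]
      intro h
      rw [h] at hg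
      exact hg rfl))

theorem slice_coeff (z : X →₀ MonoidAlgebra ℤ E) (x : X) (g : E) :
    (slice z x).coeff g = (z (g⁻¹ • x)).coeff g := rfl

end DxSlAux

open DxSlAux in
theorem dxSl (h1 : S_DxA) : S_DxSl := by
  have _ := h1
  intro E X _ _
  classical
  refine ⟨?_, ?_⟩
  · intro S r h x hx
    apply MonoidAlgebra.coeff_injective
    ext g
    have h2 := sum_coeff S r (g⁻¹ • x) g
    rw [h, smul_inv_smul, if_pos hx] at h2
    exact h2.symm
  · intro A _ z
    refine ⟨Finset.univ.biUnion fun a : A => (z a).support.biUnion fun x' =>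
      ((z a x').coeff.support).image (fun g => g • x'), fun x a => slice (z a) x, ?_⟩
    intro a
    ext x' : 1
    apply MonoidAlgebra.coeff_injective
    ext g
    rw [sum_coeff, slice_coeff, inv_smul_smul]
    by_cases h3 : (z a x').coeff g = 0
    · rw [h3, ite_self]
    · rw [if_pos]
      simp only [Finset.mem_biUnion, Finset.mem_image]
      refine ⟨a, Finset.mem_univ a, x', ?_, g, Finsupp.mem_support_iff.2 h3, rfl⟩
      rw [Finsupp.mem_support_iff]
      intro h4
      rw [h4] at h3
      exact h3 rfl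

end Pool.Agent.WaldT
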