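import Mathlib
import Pool.Agent.Lib.MP_8f66f0_al_WaldTL.Tree
import Pool.Agent.Lib.MP_8f66f0_al_WaldT.Spec
import Pool.Agent.Lib.MP_8f66f0_al_Wald.FinalHN
import Pool.Agent.Lib.MP_8f66f0_al_Wald.NilGrPd
import Pool.Agent.Lib.MP_8f66f0_al_Wald.PdN

/-! Edge groups acting on trees: the final step over the integers. -/

set_option autoImplicit false

namespace Pool.Agent.WaldT

open Pool.Agent.Wald

theorem cdLE_add {E : Type} [Group E] {n : ℕ} (h : CdLE n E) : ∀ k, CdLE (n + k) E
  | 0 => h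
  | k + 1 => by
    have h1 : Pool.Agent.Wald.CdLE (n + k) E := cdLE_add h k
    exact cdLE_succ h1

theorem nilV_of_edge : S_Fin := by
  intro E _ hE
  induction hE with
  | cd2 E h => exact nilV_of_cd h
  | tree E T d hd hV hE =>
    exact nilV_of_c1_pd (Pool.Agent.WaldTL.c1_of_tree ℤ T hV hE) (pdk_of_cd d (cdLE_add hd 2))
  | loc E h ih => exact nilV_local ih

end Pool.Agent.WaldT
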