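import Mathlib
import Pool.Agent.Lib.MP_8f66f0_al_WaldT.Spec
import Pool.Agent.Lib.MP_8f66f0_al_Wald.K1Lem
import Pool.Agent.Lib.MP_8f66f0_al_Wald.TrLem
import Pool.Agent.Lib.MP_8f66f0_al_Wald.Flat
import Pool.Agent.Lib.MP_8f66f0_al_Wald.FG

/-! If the kernel at the first level is projective, its determinant is trivial. -/

set_option autoImplicit false

namespace Pool.Agent.WaldT

open Pool.Agent.Wald Finsupp

theorem invProj (h1 : S_Add2) : S_InvProj := by
  intro R Λ _ _ _ _ hF hC K _ κ p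
  induction p with
  | zero =>
    intro X _ hI tz htz
    exact hI tz htz
  | succ p ih =>
    intro X hproj hI tz htz
    obtain ⟨N, ⟨hc1, hc2⟩, hI'⟩ := hI
    have hmem : ∀ x, N.d x ∈ LinearMap.ker X.g := by
      intro x
      rw [← N.hd]
      exact ⟨x, rfl⟩
    let δ : (N.J₁ →₀ R) →ₗ[R] LinearMap.ker X.g := N.d.codRestrict _ hmem
    have hδ : ∀ w, ((δ w : LinearMap.ker X.g) : X.J →₀ R) = N.d w := fun w => rfl
    have hsurj : Function.Surjective δ := by
      rintro ⟨y, hy⟩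
      have hy' : y ∈ LinearMap.range N.d := by
        rw [N.hd]
        exact hy
      obtain ⟨x, rfl⟩ := hy'
      exact ⟨x, rfl⟩
    obtain ⟨s, hs⟩ := Module.projective_lifting_property δ LinearMap.id hsurj
    have hs' : ∀ x, δ (s x) = x := fun x => LinearMap.congr_fun hs x
    have hdk : ∀ z : LinearMap.ker N.d, δ (z : N.J₁ →₀ R) = 0 := fun z => Subtype.ext z.2
    let q : (N.J₁ →₀ R) →ₗ[R] (N.J₁ →₀ R) := LinearMap.id - s ∘ₗ δ
    have hp : ∀ w : N.J₁ →₀ R, q w ∈ LinearMap.ker N.d := by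
      intro w
      rw [LinearMap.mem_ker]
      have e1 : δ (w - s (δ w)) = 0 := by rw [map_sub, hs', sub_self]
      have e2 := congrArg (fun u : LinearMap.ker X.g => (u : X.J →₀ R)) e1
      exact e2
    let pr : (N.J₁ →₀ R) →ₗ[R] LinearMap.ker N.d := q.codRestrict (LinearMap.ker N.d) hp
    let i0 : LinearMap.ker N.d →ₗ[R] (N.J₁ →₀ R) := (LinearMap.ker N.d).subtype
    have a1 : ∀ z, pr (i0 z) = z := fun z => Subtype.ext (by
      change (z : N.J₁ →₀ R) - s (δ (z : N.J₁ →₀ R)) = z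
      rw [hdk, map_zero, sub_zero])
    have a2 : ∀ w, i0 (pr w) + s (δ w) = w := fun w => by
      change (w - s (δ w)) + s (δ w) = w
      rw [sub_add_cancel]
    have a3 : ∀ z, δ (i0 z) = 0 := hdk
    have a4 : ∀ x, pr (s x) = 0 := fun x => Subtype.ext (by
      change s x - s (δ (s x)) = 0
      rw [hs', sub_self])
    have hZ : Module.Projective R (LinearMap.ker N.d) :=
      Module.Projective.of_split i0 pr (LinearMap.ext a1)
    have ht0 : ∀ z : LinearMap.ker N.d,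
        bc Λ N.d ((N.t.pre (LinearMap.ker N.d).subtype).app (emb R Λ N.J₁) z) = 0 := by
      intro z
      exact N.lev.ht ((LinearMap.ker N.d).subtype z) z.2
    let t0 : Tr R Λ (LinearMap.ker N.d) (N.J₁ →₀ R) := N.t.pre (LinearMap.ker N.d).subtype
    obtain ⟨tz₁, htz₁⟩ := exists_tr_ker hF hC N.d X.g N.hd t0 ht0
    have d0 : IsUnit (1 - tz₁.mat) ∧ κ.f (1 - tz₁.mat) = 1 := ih N.lev hZ hI' tz₁ htz₁
    obtain ⟨d1, d2⟩ := d0
    let t2 : Tr R Λ (LinearMap.ker N.d) (N.J₁ →₀ R) := tz₁.post i0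
    have a5 : ∀ z f, N.t.ev (i0 z) f = tz₁.ev z (f ∘ₗ i0) := fun z f =>
      ev_eq_of_app t0 t2 z (htz₁ z).symm f
    let t3 : Tr R Λ (N.J₁ →₀ R) (LinearMap.ker X.g) := N.t.post δ
    let t4 : Tr R Λ (N.J₁ →₀ R) (LinearMap.ker X.g) := tz.pre δ
    have e1 : ∀ w, t3.app (emb R Λ X.J ∘ₗ (LinearMap.ker X.g).subtype) w =
        t4.app (emb R Λ X.J ∘ₗ (LinearMap.ker X.g).subtype) w := by
      intro w
      have e2 : t4.app (emb R Λ X.J ∘ₗ (LinearMap.ker X.g).subtype) w =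
          X.t.app (emb R Λ X.J) (N.d w) := htz (δ w)
      have e3 : t3.app (emb R Λ X.J ∘ₗ (LinearMap.ker X.g).subtype) w =
          (N.t.post N.d).app (emb R Λ X.J) w := rfl
      rw [e2, e3, ← N.ht, bc_app]
    have a6 : ∀ w f, N.t.ev w (f ∘ₗ δ) = tz.ev (δ w) f := fun w f =>
      ev_eq_of_app_sub hF (LinearMap.ker X.g) t3 t4 w (e1 w) f
    have hA1 := h1 R Λ (LinearMap.ker N.d) (N.J₁ →₀ R) (LinearMap.ker X.g) i0 δ s pr
    have hA2 := hA1 hs'
    have hA3 := hA2 a1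
    have hA4 := hA3 a2
    have hA5 := hA4 a3
    have hA6 := hA5 a4
    have hA7 := hA6 N.t tz₁ tz
    have hA8 := hA7 a5
    have hA9 := hA8 a6
    have hA10 := hA9 hc1 d1
    obtain ⟨b1, b2⟩ := hA10
    have b3 := b2 K κ
    rw [hc2, d2, one_mul] at b3
    exact ⟨b1, b3.symm⟩

end Pool.Agent.WaldT
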