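import Pool.Agent.Lib.MP_8f66f0_al_WaldT.Spec
import Pool.Agent.Lib.MP_8f66f0_al_Wald.Step
import Pool.Agent.Lib.MP_8f66f0_al_Wald.FG

/-! One level up along an arrow. -/

set_option autoImplicit false

namespace Pool.Agent.WaldT

open Pool.Agent.Wald Finsupp

namespace LvUpAux

variable {R Λ : Type} [Ring R] [Ring Λ] [Module R Λ] [IsScalarTower R Λ Λ]

theorem bc_add {J J' : Type} (f g : (J →₀ R) →ₗ[R] (J' →₀ R)) (y : J →₀ Λ) :
    bc Λ (f + g) y = bc Λ f y + bc Λ g y := by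
  induction y using Finsupp.induction_linear with
  | zero => simp
  | add x y hx hy => rw [map_add, map_add, map_add, hx, hy]; abel
  | single j l =>
    rw [Step.bc_single, Step.bc_single, Step.bc_single, LinearMap.add_apply, map_add, smul_add]

section Pb

variable {K J L M : Type} (g : (K →₀ R) →ₗ[R] (M →₀ R)) (I : (K →₀ R) →ₗ[R] (L →₀ R))
  (d : (J →₀ R) →ₗ[R] (L →₀ R))

/-- The pair `(g, I)` as a map into a free module. -/
noncomputable def I2 : (K →₀ R) →ₗ[R] ((M ⊕ L) →₀ R) :=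
  lmapDomain R R Sum.inl ∘ₗ g + lmapDomain R R Sum.inr ∘ₗ I

/-- The pair `(0, d)` as a map into a free module. -/
noncomputable def d2 (M : Type) : (J →₀ R) →ₗ[R] ((M ⊕ L) →₀ R) :=
  lmapDomain R R Sum.inr ∘ₗ d

theorem I2_eq (p : K →₀ R) (q : J →₀ R) : I2 g I p = d2 d M q ↔ g p = 0 ∧ I p = d q := by
  constructor
  · intro h
    constructor
    · ext m
      have h1 := DFunLike.congr_fun h (Sum.inl m)
      simp only [I2, d2, LinearMap.add_apply, LinearMap.comp_apply, lmapDomain_apply,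
        Finsupp.add_apply] at h1
      rw [Finsupp.mapDomain_apply Sum.inl_injective, Finsupp.mapDomain_of_notMem_range _ _ (by simp),
        Finsupp.mapDomain_of_notMem_range _ _ (by simp), add_zero] at h1
      simpa using h1
    · ext m
      have h1 := DFunLike.congr_fun h (Sum.inr m)
      simp only [I2, d2, LinearMap.add_apply, LinearMap.comp_apply, lmapDomain_apply,
        Finsupp.add_apply] at h1
      rw [Finsupp.mapDomain_apply Sum.inr_injective, Finsupp.mapDomain_apply Sum.inr_injective,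
        Finsupp.mapDomain_of_notMem_range _ _ (by simp), zero_add] at h1
      exact h1
  · rintro ⟨h1, h2⟩
    simp only [I2, d2, LinearMap.add_apply, LinearMap.comp_apply, h1, h2, map_zero, zero_add]

theorem lift2 (hF : RFlat R Λ) (q : K →₀ Λ) (w : J →₀ Λ) (h0 : bc Λ g q = 0)
    (h : bc Λ I q = bc Λ d w) :
    ∃ u : Step.Pb (I2 g I) (d2 d M) →₀ Λ, bc Λ (Step.fstMap (I2 g I) (d2 d M)) u = q ∧
      bc Λ (Step.sndMap (I2 g I) (d2 d M)) u = w := by
  refine Step.lift (I2 g I) (d2 d M) hF q w ?_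
  rw [I2, d2, bc_add, ← bc_comp, ← bc_comp, ← bc_comp, h0, h, map_zero, zero_add]

theorem fst_snd2 (x : Step.Pb (I2 g I) (d2 d M) →₀ R) :
    g (Step.fstMap (I2 g I) (d2 d M) x) = 0 ∧
      I (Step.fstMap (I2 g I) (d2 d M) x) = d (Step.sndMap (I2 g I) (d2 d M) x) :=
  (I2_eq g I d _ _).1 (Step.fst_snd (I2 g I) (d2 d M) x).symm

theorem fst_single (p : Step.Pb (I2 g I) (d2 d M)) :
    Step.fstMap (I2 g I) (d2 d M) (single p 1) = p.1.1 := by
  rw [Step.fstMap, Finsupp.linearCombination_single, one_smul]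

theorem snd_single (p : Step.Pb (I2 g I) (d2 d M)) :
    Step.sndMap (I2 g I) (d2 d M) (single p 1) = p.1.2 := by
  rw [Step.sndMap, Finsupp.linearCombination_single, one_smul]

end Pb

/-- A surjection of kernels stays surjective after base change. -/
theorem liftK (hF : RFlat R Λ) {K L M M' : Type} (g : (K →₀ R) →ₗ[R] (M →₀ R))
    (g' : (L →₀ R) →ₗ[R] (M' →₀ R)) (I : (K →₀ R) →ₗ[R] (L →₀ R))
    (h : ∀ z', g' z' = 0 → ∃ z, g z = 0 ∧ I z = z') (y : L →₀ Λ) (hy : bc Λ g' y = 0) :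
    ∃ x : K →₀ Λ, bc Λ g x = 0 ∧ bc Λ I x = y := by
  obtain ⟨k, l, x, hx, rfl⟩ := exists_rep hF g' y hy
  choose z hz1 hz2 using fun a => h (x a) (hx a)
  refine ⟨∑ a, l a • emb R Λ K (z a), ?_, ?_⟩
  · rw [map_sum]
    refine Finset.sum_eq_zero fun a _ => ?_
    rw [bc_smul_emb, hz1, map_zero, smul_zero]
  · rw [map_sum]
    refine Finset.sum_congr rfl fun a _ => ?_
    rw [bc_smul_emb, hz2]

end LvUpAux

open LvUpAux in
theorem lvUp : S_LvUp := by
  classical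
  intro R Λ _ _ _ _ hF hC X' X a N'
  have hgd : ∀ w, X'.g (N'.d w) = 0 := fun w => by
    have : N'.d w ∈ LinearMap.ker X'.g := N'.hd ▸ LinearMap.mem_range_self N'.d w
    simpa using this
  -- the map `τ d'` as a finite rank map into the kernel of `g`
  have ht0 : ∀ w, bc Λ X.g ((a.τ.pre N'.d).app (emb R Λ X.J) w) = 0 := by
    intro w
    rw [app_pre]
    exact a.h3 _ (hgd w)
  obtain ⟨tz, htz⟩ := exists_tr_ker hF hC X.g X.e X.hg (a.τ.pre N'.d) ht0
  let ω : Fin tz.k → (X.J →₀ Λ) := fun c => tz.lam c • emb R Λ X.J (tz.y c : X.J →₀ R)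
  have hω : ∀ w, a.τ.app (emb R Λ X.J) (N'.d w) = ∑ c, tz.φ c w • ω c := fun w => (htz w).symm
  have hgω : ∀ c, bc Λ X.g (ω c) = 0 := by
    intro c
    have h1 : X.g (tz.y c : X.J →₀ R) = 0 := (tz.y c).2
    simp only [ω]
    rw [bc_smul_emb, h1, map_zero, smul_zero]
  let η : Fin N'.t.k → (N'.J₁ →₀ Λ) := fun l => N'.t.lam l • emb R Λ N'.J₁ (N'.t.y l)
  have hη : ∀ w, N'.t.app (emb R Λ N'.J₁) w = ∑ l, N'.t.φ l w • η l := fun w => rfl
  let k1 : Fin tz.k → (X'.J →₀ Λ) := fun c => bc Λ a.I (ω c)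
  let k2 : Fin N'.t.k → (X'.J →₀ Λ) := fun l => bc Λ N'.d (η l)
  have hk1 : ∀ c, bc Λ X'.g (k1 c) = 0 := by
    intro c
    have h1 : X'.g (a.I (tz.y c : X.J →₀ R)) = 0 := a.hI _ (tz.y c).2
    simp only [k1, ω]
    rw [bc_smul_emb, bc_smul_emb, h1, map_zero, smul_zero]
  have hk2 : ∀ l, bc Λ X'.g (k2 l) = 0 := by
    intro l
    simp only [k2, η]
    rw [bc_smul_emb, bc_smul_emb, hgd, map_zero, smul_zero]
  let k : Fin (tz.k + N'.t.k) → (X'.J →₀ Λ) := Fin.append k1 k2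
  have hk : ∀ l, bc Λ X'.g (k l) = 0 := by
    intro l
    refine Fin.addCases (fun b => ?_) (fun c => ?_) l
    · simp only [k, Fin.append_left]; exact hk1 _
    · simp only [k, Fin.append_right]; exact hk2 _
  obtain ⟨s', k3, T, ρ, ρ', hk3, hρ, hcl⟩ := hC X'.J X'.L X'.g (tz.k + N'.t.k) k hk
  -- the relation
  let c : (N'.J₁ →₀ R) →ₗ[R] (Fin (tz.k + N'.t.k) → R) :=
    LinearMap.pi (Fin.addCases (fun b => tz.φ b) (fun l => -N'.t.φ l))
  have hc1 : ∀ x b, c x (Fin.castAdd _ b) = tz.φ b x := by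
    intro x b
    simp [c]
  have hc2 : ∀ x l, c x (Fin.natAdd _ l) = -N'.t.φ l x := by
    intro x l
    simp [c]
  have hrel : ∀ x, ∑ l, c x l • k l = 0 := by
    intro x
    rw [Fin.sum_univ_add]
    simp only [k, Fin.append_left, Fin.append_right, hc1, hc2]
    have h1 : ∑ b, tz.φ b x • k1 b = bc Λ a.I (a.τ.app (emb R Λ X.J) (N'.d x)) := by
      rw [hω, map_sum]
      refine Finset.sum_congr rfl fun b _ => ?_
      rw [bc_rsmul]
    have h2 : ∑ l, -N'.t.φ l x • k2 l = - bc Λ N'.d (N'.t.app (emb R Λ N'.J₁) x) := by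
      rw [hη, map_sum, ← Finset.sum_neg_distrib]
      refine Finset.sum_congr rfl fun l _ => ?_
      rw [bc_rsmul, neg_smul]
    rw [h1, h2, a.h1, N'.ht, add_neg_cancel]
  obtain ⟨z, hz⟩ := Step.coef ρ ρ' c (fun x => hcl _ (hrel x))
  -- the lifts to the kernel of `g`
  choose χ hχ1 hχ2 using fun l => liftK hF X.g X'.g a.I a.hIs (k2 l) (hk2 l)
  choose κ hκ1 hκ2 using fun b => liftK hF X.g X'.g a.I a.hIs (k3 b) (hk3 b)
  let Ω : Fin T → (X.J →₀ Λ) := fun t => ∑ b, ρ t (Fin.castAdd _ b) • ω b +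
    ∑ l, ρ t (Fin.natAdd _ l) • χ l + ∑ b, ρ' t b • κ b
  have hΩ1 : ∀ t, bc Λ X.g (Ω t) = 0 := by
    intro t
    simp only [Ω, map_add, map_sum, bc_rsmul, hgω, hχ1, hκ1, smul_zero, Finset.sum_const_zero,
      add_zero]
  have hΩ2 : ∀ t, bc Λ a.I (Ω t) = bc Λ N'.d 0 := by
    intro t
    have h1 := hρ t
    rw [Fin.sum_univ_add] at h1
    simp only [k, Fin.append_left, Fin.append_right] at h1
    simp only [Ω, map_add, map_sum, bc_rsmul, hχ2, hκ2, map_zero]
    exact h1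
  have hχ2' : ∀ l, bc Λ a.I (χ l) = bc Λ N'.d (η l) := hχ2
  let D := Step.fstMap (I2 X.g a.I) (d2 N'.d X.L)
  let I₁ := Step.sndMap (I2 X.g a.I) (d2 N'.d X.L)
  have hD : ∀ x, X.g (D x) = 0 ∧ a.I (D x) = N'.d (I₁ x) := fst_snd2 X.g a.I N'.d
  choose A hA1 hA2 using fun t => lift2 X.g a.I N'.d hF (Ω t) 0 (hΩ1 t) (hΩ2 t)
  choose Bq hB1 hB2 using fun l => lift2 X.g a.I N'.d hF (χ l) (η l) (hχ1 l) (hχ2' l)
  obtain ⟨τ, hτ⟩ := Step.exists_tr (R := R) (Λ := Λ)
    (Sum.elim z N'.t.φ : Fin T ⊕ Fin N'.t.k → ((N'.J₁ →₀ R) →ₗ[R] R)) (Sum.elim A Bq)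
  have hτ' : ∀ w, τ.app (emb R Λ (Step.Pb (I2 X.g a.I) (d2 N'.d X.L))) w =
      ∑ t, z t w • A t + ∑ l, N'.t.φ l w • Bq l := by
    intro w
    rw [hτ, Fintype.sum_sum_type]
    rfl
  have hτD : ∀ w, bc Λ D (τ.app (emb R Λ (Step.Pb (I2 X.g a.I) (d2 N'.d X.L))) w) =
      a.τ.app (emb R Λ X.J) (N'.d w) := by
    intro w
    rw [hτ', map_add, map_sum, map_sum]
    simp only [bc_rsmul]
    have e1 : ∀ t, bc Λ D (A t) = Ω t := hA1
    have e2 : ∀ l, bc Λ D (Bq l) = χ l := hB1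
    simp only [e1, e2]
    have e4 : ∑ t, z t w • Ω t = ∑ b, tz.φ b w • ω b - ∑ l, N'.t.φ l w • χ l := by
      simp only [Ω, smul_add, Finset.sum_add_distrib, Finset.smul_sum, smul_smul]
      rw [Finset.sum_comm, Finset.sum_comm (f := fun t l => (z t w * ρ t (Fin.natAdd tz.k l)) • χ l),
        Finset.sum_comm (f := fun t b => (z t w * ρ' t b) • κ b)]
      simp only [← Finset.sum_smul]
      have f1 : ∀ b, ∑ t, z t w * ρ t (Fin.castAdd N'.t.k b) = tz.φ b w := fun b => by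
        rw [(hz w).1, hc1]
      have f2 : ∀ l, ∑ t, z t w * ρ t (Fin.natAdd tz.k l) = -N'.t.φ l w := fun l => by
        rw [(hz w).1, hc2]
      simp only [f1, f2, (hz w).2, zero_smul, Finset.sum_const_zero, add_zero, neg_smul,
        Finset.sum_neg_distrib]
      rw [sub_eq_add_neg]
    rw [hω, e4, sub_add_cancel]
  have hτI : ∀ w, bc Λ I₁ (τ.app (emb R Λ (Step.Pb (I2 X.g a.I) (d2 N'.d X.L))) w) =
      N'.t.app (emb R Λ N'.J₁) w := by
    intro w
    rw [hτ', map_add, map_sum, map_sum, hη]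
    simp only [bc_rsmul]
    have e1 : ∀ t, bc Λ I₁ (A t) = 0 := hA2
    have e2 : ∀ l, bc Λ I₁ (Bq l) = η l := hB2
    simp only [e1, e2, smul_zero, Finset.sum_const_zero, zero_add]
  have hDr : LinearMap.range D = LinearMap.ker X.g := by
    apply le_antisymm
    · rintro _ ⟨w, rfl⟩
      exact (hD w).1
    · intro q hq
      have hq' : X.g q = 0 := hq
      have h1 : a.I q ∈ LinearMap.range N'.d := by
        rw [N'.hd]
        exact a.hI q hq'
      obtain ⟨w, hw⟩ := h1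
      exact ⟨single ⟨(q, w), (I2_eq X.g a.I N'.d q w).2 ⟨hq', hw.symm⟩⟩ 1,
        fst_single X.g a.I N'.d _⟩
  let N : X.Nx :=
    { J₁ := Step.Pb (I2 X.g a.I) (d2 N'.d X.L)
      d := D
      hd := hDr
      t := τ.pre I₁
      ht := fun w => by
        rw [app_pre, hτD, ← (hD w).2, a.h2, app_pre] }
  refine ⟨N, ⟨{ I := I₁, τ := τ, hI := ?_, hIs := ?_, h1 := hτI, h2 := rfl, h3 := ?_ }⟩⟩
  · intro w hw
    have hw' : D w = 0 := hw
    change N'.d (I₁ w) = 0
    rw [← (hD w).2, hw', map_zero]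
  · intro w hw
    have hw' : N'.d w = 0 := hw
    exact ⟨single ⟨(0, w), (I2_eq X.g a.I N'.d 0 w).2 ⟨map_zero _, by rw [map_zero, hw']⟩⟩ 1,
      fst_single X.g a.I N'.d _, snd_single X.g a.I N'.d _⟩
  · intro w hw
    have hw' : N'.d w = 0 := hw
    refine (hτD w).trans ?_
    rw [hw']
    unfold Tr.app
    exact Finset.sum_eq_zero fun b _ => by rw [map_zero, zero_smul]

end Pool.Agent.WaldT
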