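import Mathlib
import Pool.Agent.Lib.MP_8f66f0_al_WaldT.Spec
import Pool.Agent.Lib.MP_8f66f0_al_Wald.C1Fmod
import Pool.Agent.Lib.MP_8f66f0_al_Wald.GrFlat
import Pool.Agent.Lib.MP_8f66f0_al_Wald.GrFree

/-! Theorem N for group rings, with kernels of projective dimension at most `p`. -/

set_option autoImplicit false

namespace Pool.Agent.WaldT

open Pool.Agent.Wald Finsupp Matrix

/-- the linear map given by the rows of a matrix -/
private noncomputable def NilGrP_lin {R Λ : Type} [Ring R] [Ring Λ] [Module R Λ] {n : ℕ} {q : Type}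
    [Finite q] (M : Matrix (Fin n) q Λ) : (Fin n →₀ R) →ₗ[R] (q →₀ Λ) :=
  Finsupp.linearCombination R fun a => Finsupp.equivFunOnFinite.symm (M a)

private theorem NilGrP_lin_apply {R Λ : Type} [Ring R] [Ring Λ] [Module R Λ] {n : ℕ} {q : Type}
    [Finite q] (M : Matrix (Fin n) q Λ) (x : Fin n →₀ R) (b : q) :
    NilGrP_lin M x b = ∑ a, x a • M a b := by
  unfold NilGrP_lin
  have h1 := Finsupp.sum_fintype x (fun i a => a • Finsupp.equivFunOnFinite.symm (M i))
    (fun i => zero_smul R _)
  rw [Finsupp.linearCombination_apply, h1, Finsupp.finset_sum_apply]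
  rfl

theorem nilGrP (h1 : S_NilVanP) : S_NilGrP := by
  intro E _ p hC hP G _ φ hφ n ν m B h h0 hm hh hu K _ κ
  let := modH φ
  have := towerH φ
  have hF : RFlat (MonoidAlgebra ℤ E) (MonoidAlgebra ℤ G) := rflat_gr φ hφ
  have hfree : Module.Free (MonoidAlgebra ℤ E) (MonoidAlgebra ℤ G) := free_gr φ hφ
  have : Module.Projective (MonoidAlgebra ℤ E) (MonoidAlgebra ℤ G) := Module.Projective.of_free
  have hC1 : C1F (MonoidAlgebra ℤ E) (MonoidAlgebra ℤ G) := c1F_of_c1 hC
  let ν' : (Fin n →₀ MonoidAlgebra ℤ E) →ₗ[MonoidAlgebra ℤ E] (Fin n →₀ MonoidAlgebra ℤ G) :=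
    NilGrP_lin ν
  let h' : ∀ i, (Fin n →₀ MonoidAlgebra ℤ E) →ₗ[MonoidAlgebra ℤ E]
    (Fin (B i) →₀ MonoidAlgebra ℤ E) := fun i => NilGrP_lin (h i)
  have hh' : ∀ i x b, h' i x b = vecMul (fun a => x a) (h i) b := fun i x b =>
    NilGrP_lin_apply (h i) x b
  have hν' : ∀ x b, ν' x b = vecMul (fun a => inc φ (x a)) ν b := fun x b =>
    NilGrP_lin_apply ν x b
  have hmat : matOf ν' = ν := by
    refine Matrix.ext fun a b => ?_
    show ν' (single a 1) b = ν a b
    rw [hν']
    have h1 : (fun c => inc φ ((single a (1 : MonoidAlgebra ℤ E) : Fin n →₀ MonoidAlgebra ℤ E) c))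
        = Pi.single a 1 := by
      funext c
      by_cases hc : c = a
      · subst hc
        rw [Finsupp.single_eq_same, Pi.single_eq_same, map_one]
      · rw [Finsupp.single_eq_of_ne hc, Pi.single_eq_of_ne hc, map_zero]
    rw [h1, Matrix.single_one_vecMul]
    rfl
  have hbc : ∀ i (y : Fin n →₀ MonoidAlgebra ℤ G) b, bc (MonoidAlgebra ℤ G) (h' i) y b =
      vecMul (fun a => y a) ((h i).map (inc φ)) b := by
    intro i y b
    unfold bc
    have h0 := Finsupp.sum_fintype y (fun j a => a • (emb (MonoidAlgebra ℤ E) (MonoidAlgebra ℤ G)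
      (Fin (B i))) ((h' i) (single j 1))) (fun i => zero_smul (MonoidAlgebra ℤ G) _)
    rw [Finsupp.linearCombination_apply, h0, Finsupp.finset_sum_apply]
    refine Finset.sum_congr rfl fun a _ => ?_
    rw [Finsupp.smul_apply, smul_eq_mul]
    congr 1
    unfold emb
    rw [Finsupp.mapRange.linearMap_apply, Finsupp.mapRange_apply,
      LinearMap.toSpanSingleton_apply, hh']
    have h1 : vecMul (fun c => (single a (1 : MonoidAlgebra ℤ E) :
        Fin n →₀ MonoidAlgebra ℤ E) c) (h i) b = h i a b := by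
      have h2 : (fun c => (single a (1 : MonoidAlgebra ℤ E) : Fin n →₀ MonoidAlgebra ℤ E) c)
          = Pi.single a 1 := by
        funext c
        by_cases hc : c = a
        · subst hc
          rw [Finsupp.single_eq_same, Pi.single_eq_same]
        · rw [Finsupp.single_eq_of_ne hc, Pi.single_eq_of_ne hc]
      rw [h2, Matrix.single_one_vecMul]
      rfl
    rw [h1]
    exact mul_one _
  have key := h1 (MonoidAlgebra ℤ E) (MonoidAlgebra ℤ G) hF hC1 p hP n ν' m
    (fun i => Fin (B i)) h' ?_ ?_ ?_ ?_ K κ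
  · rw [hmat] at key
    exact key
  · intro x hx
    have h1 : (fun a => x a) = 0 := h0 _ (by
      funext b
      rw [← hh', hx]
      rfl)
    ext1 a
    exact congrFun h1 a
  · intro x
    ext1 b
    rw [hh', hm, Matrix.vecMul_zero]
    rfl
  · intro i x hx
    have h1 := hh i (fun a => x a) (by
      funext b
      rw [← hh', hx]
      rfl)
    ext1 b
    rw [hbc]
    have h2 : (fun a => ν' x a) = vecMul (fun a => inc φ (x a)) ν := funext fun a => hν' x a
    rw [h2, h1]
    rfl
  · rw [hmat]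
    exact hu

end Pool.Agent.WaldT
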