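import Mathlib
import Pool.Agent.Lib.MP_8f66f0_al_WaldT.Spec
import Pool.Agent.Lib.MP_8f66f0_al_Wald.NilVan

/-! Theorem N with kernels of projective dimension at most `p`. -/

set_option autoImplicit false

namespace Pool.Agent.WaldT

open Pool.Agent.Wald Finsupp CategoryTheory

section NilVanP

private theorem nilVanP_sh {R : Type} [Ring R] {P M : Type} [AddCommGroup P] [Module R P]
    [AddCommGroup M] [Module R M] [Module.Projective R P] (f : P →ₗ[R] M)
    (hf : Function.Surjective f) (n : ℕ)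
    (hM : HasProjectiveDimensionLT (ModuleCat.of R M) (n + 2)) :
    HasProjectiveDimensionLT (ModuleCat.of R (LinearMap.ker f)) (n + 1) := by
  have h1 := LinearMap.shortExact_shortComplexKer hf
  have hP : Projective (ModuleCat.of R P) := (IsProjective.iff_projective P).mp inferInstance
  have h2 : HasProjectiveDimensionLT (ModuleCat.of R P) (n + 1) :=
    hasProjectiveDimensionLT_of_ge _ 1 _ (by omega)
  exact h1.hasProjectiveDimensionLT_X₁ (n + 1) h2 hM

variable {R Λ : Type} [Ring R] [Ring Λ] [Module R Λ] [IsScalarTower R Λ Λ]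

private theorem nilVanP_pd {n : ℕ} {ν : (Fin n →₀ R) →ₗ[R] (Fin n →₀ Λ)} (S : Stage R Λ n ν)
    (p : ℕ) (hP : PDB R p) :
    HasProjectiveDimensionLE (ModuleCat.of R (LinearMap.ker (levOf S).g)) p := by
  have hmem : ∀ x, S.d x ∈ LinearMap.ker S.e := by
    intro x
    rw [← S.hd]
    exact ⟨x, rfl⟩
  set d' : (S.J →₀ R) →ₗ[R] LinearMap.ker S.e := S.d.codRestrict _ hmem with hd'
  have hsurj : Function.Surjective d' := by
    rintro ⟨y, hy⟩
    have hy' : y ∈ LinearMap.range S.d := by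
      rw [S.hd]
      exact hy
    obtain ⟨x, rfl⟩ := hy'
    exact ⟨x, rfl⟩
  have h1 : HasProjectiveDimensionLT (ModuleCat.of R (LinearMap.ker S.e)) (p + 1) := hP _ _ S.e
  have h1' : HasProjectiveDimensionLT (ModuleCat.of R (LinearMap.ker S.e)) (p + 2) :=
    hasProjectiveDimensionLT_of_ge _ (p + 1) _ (by omega)
  have h2 : HasProjectiveDimensionLT (ModuleCat.of R (LinearMap.ker d')) (p + 1) :=
    nilVanP_sh d' hsurj p h1'
  have h4 : LinearMap.ker d' = LinearMap.ker S.d := LinearMap.ker_codRestrict _ _ _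
  rw [h4] at h2
  exact h2

private theorem nilVanP_tr0 {Y : Type} [AddCommGroup Y] [Module R Y] {K : Type} [CommGroup K]
    (κ : K1Fun Λ K) (t : Tr R Λ Y Y) (ht : t.mat = 0) :
    IsUnit (1 - t.mat) ∧ κ.f (1 - t.mat) = 1 := by
  rw [ht, sub_zero]
  exact ⟨isUnit_one, κ.f_one⟩

private theorem nilVanP_sub {Y : Type} [AddCommGroup Y] [Module R Y] [Subsingleton Y]
    (t : Tr R Λ Y Y) : t.mat = 0 := by
  ext1 a b
  change t.lam a * io R Λ (t.φ b (t.y a)) = 0
  have h2 : t.y a = 0 := Subsingleton.elim _ _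
  rw [h2, map_zero, map_zero, mul_zero]

private theorem nilVanP_bc_apply {J J' : Type} [Fintype J] (g : (J →₀ R) →ₗ[R] (J' →₀ R))
    (y : J →₀ Λ) (c : J') : bc Λ g y c = ∑ j, y j * io R Λ (g (single j 1) c) := by
  have h1 : bc Λ g y = ∑ j, y j • emb R Λ J' (g (single j 1)) := by
    change Finsupp.linearCombination Λ (fun j => emb R Λ J' (g (single j 1))) y = _
    rw [Finsupp.linearCombination_apply]
    exact Finsupp.sum_fintype _ _ (fun i => zero_smul _ _)
  rw [h1, Finsupp.finsetSum_apply]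
  exact Finset.sum_congr rfl fun j _ => rfl

private theorem nilVanP_bc_id {n : ℕ} (y : Fin n →₀ Λ) : bc (R := R) Λ LinearMap.id y = y := by
  refine Finsupp.ext fun c => ?_
  rw [nilVanP_bc_apply]
  rw [Finset.sum_eq_single c]
  · change y c * io R Λ ((single c (1 : R)) c) = y c
    rw [Finsupp.single_eq_same, map_one, mul_one]
  · intro j _ hj
    change y j * io R Λ ((single j (1 : R)) c) = 0
    rw [Finsupp.single_apply, if_neg hj, map_zero, mul_zero]
  · intro hc
    exact absurd (Finset.mem_univ c) hc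

/-- The invariant at a level with empty basis. -/
private theorem nilVanP_inv_empty {K : Type} [CommGroup K] (κ : K1Fun Λ K) (p : ℕ) :
    ∀ X : Lev R Λ, IsEmpty X.J → Inv κ p X := by
  induction p with
  | zero =>
    intro X hX tz _
    exact nilVanP_tr0 κ _ (nilVanP_sub _)
  | succ p ih =>
    intro X hX
    let N : X.Nx :=
      { J₁ := Empty
        d := 0
        hd := by
          rw [LinearMap.range_zero]
          exact (Submodule.eq_bot_of_subsingleton (p := LinearMap.ker X.g)).symm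
        t := ⟨0, fun a => a.elim0, fun a => a.elim0, fun a => a.elim0⟩
        ht := fun w => Subsingleton.elim _ _ }
    have hN : IsEmpty N.J₁ := inferInstanceAs (IsEmpty Empty)
    exact ⟨N, nilVanP_tr0 κ _ (nilVanP_sub _), ih N.lev hN⟩

/-- The invariant of the downward induction. -/
private def NilVanP_Inv {n : ℕ} (ν : (Fin n →₀ R) →ₗ[R] (Fin n →₀ Λ)) {B : Type}
    (h : (Fin n →₀ R) →ₗ[R] (B →₀ R)) {K : Type} [CommGroup K] (κ : K1Fun Λ K) (p : ℕ) : Prop :=
  ∃ S : Stage R Λ n ν, (∀ x, h (S.e x) = 0) ∧ SameK (matOf ν) (matOf S.N) ∧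
    (IsUnit (1 - S.t.mat) ∧ κ.f (1 - S.t.mat) = 1) ∧ Inv κ p (levOf S)

/-- The first stage. -/
private noncomputable def nilVanP_S0 {n : ℕ} (ν : (Fin n →₀ R) →ₗ[R] (Fin n →₀ Λ)) :
    Stage R Λ n ν where
  r := n
  e := LinearMap.id
  N := ν
  hN x := nilVanP_bc_id (ν x)
  J := Empty
  d := 0
  hd := by rw [LinearMap.range_zero, LinearMap.ker_id]
  t := ⟨0, fun a => a.elim0, fun a => a.elim0, fun a => a.elim0⟩
  ht w := by
    have h1 : ∀ z : Empty →₀ Λ, bc Λ (0 : (Empty →₀ R) →ₗ[R] (Fin n →₀ R)) z = 0 := by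
      intro z
      have h2 : z = 0 := Subsingleton.elim _ _
      rw [h2, map_zero]
    rw [h1]
    exact (map_zero ν).symm

private theorem nilVanP_base {n : ℕ} (ν : (Fin n →₀ R) →ₗ[R] (Fin n →₀ Λ)) {B : Type}
    (h : (Fin n →₀ R) →ₗ[R] (B →₀ R)) {K : Type} [CommGroup K] (κ : K1Fun Λ K) (p : ℕ)
    (hm : ∀ x, h x = 0) : NilVanP_Inv ν h κ p := by
  have hJ : IsEmpty (nilVanP_S0 (R := R) (Λ := Λ) ν).J := inferInstanceAs (IsEmpty Empty)
  refine ⟨nilVanP_S0 ν, fun x => hm _, SameK.refl _, ?_, ?_⟩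
  · exact nilVanP_tr0 κ _ (nilVanP_sub _)
  · exact nilVanP_inv_empty κ p _ hJ

private theorem nilVanP_step (k1 : S_Step2) (k2 : S_ArrStep) (hF : RFlat R Λ) (hC : C1F R Λ)
    (p : ℕ) (hP : PDB R p) {n : ℕ}
    (ν : (Fin n →₀ R) →ₗ[R] (Fin n →₀ Λ)) {B B' : Type}
    (h : (Fin n →₀ R) →ₗ[R] (B →₀ R)) (h' : (Fin n →₀ R) →ₗ[R] (B' →₀ R))
    (hh : ∀ x, h x = 0 → bc Λ h' (ν x) = 0) {K : Type} [CommGroup K] (κ : K1Fun Λ K)
    (hI : NilVanP_Inv ν h κ p) : NilVanP_Inv ν h' κ p := by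
  obtain ⟨S, hS, hb, ⟨hc1, hc2⟩, hd⟩ := hI
  obtain ⟨S', I, P, IW, τ, g1, g2, g3, g4, g5, g6, g7, g8⟩ :=
    k1 R Λ hF hC n ν S B B' h h' hS hh
  refine ⟨S', g1, hb.trans (matOf_swap I P S.N S'.N g2 g3), ?_, ?_⟩
  · have e1 : SameK S.t.mat (τ.post IW).mat := by
      refine sameK_of_ev S.t (τ.post IW) fun x f => ev_eq_of_app _ _ x ?_ f
      rw [← bc_app, g6]
    obtain ⟨e2, e3⟩ := e1 hc1
    rw [g7]
    exact ⟨e2, (e3 K κ).trans hc2⟩
  · let a : Arr (levOf S) (levOf S') :=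
      { I := IW
        τ := τ
        hI := fun z hz => by
          have e1 : S'.d z = 0 := hz
          have e2 := g4 z
          rw [e1, map_zero] at e2
          exact e2
        hIs := g8
        h1 := g6
        h2 := g7
        h3 := fun z hz => by
          have e1 : S.d z = 0 := hz
          have e2 := g5 z
          rw [e1, map_zero] at e2
          exact e2 }
    exact k2 R Λ hF hC K κ p (levOf S) (levOf S') a (nilVanP_pd S p hP) (nilVanP_pd S' p hP) hd

theorem nilVanP (h1 : S_Step2) (h2 : S_ArrStep) (h3 : S_InvProj) : S_NilVanP := by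
  intro R Λ _ _ _ _ hF hC p hP n ν m B h h0 hm hh hu K _ κ
  have hI : ∀ i ≤ m, NilVanP_Inv ν (h (m - i)) κ p := by
    intro i
    induction i with
    | zero => exact fun _ => nilVanP_base ν _ κ p hm
    | succ i ih =>
      intro hi
      refine nilVanP_step h1 h2 hF hC p hP ν (h (m - i)) (h (m - (i + 1))) ?_ κ (ih (by omega))
      have e1 : m - i = m - (i + 1) + 1 := by omega
      rw [e1]
      exact hh (m - (i + 1))
  have hI0 := hI m le_rfl
  rw [Nat.sub_self] at hI0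
  obtain ⟨S, hS, hb, ⟨hc1, hc2⟩, hd⟩ := hI0
  have he : ∀ x, S.e x = 0 := fun x => h0 _ (hS x)
  have hsurj : Function.Surjective S.d := by
    rw [← LinearMap.range_eq_top, S.hd, LinearMap.ker_eq_top]
    exact LinearMap.ext he
  obtain ⟨s, hs⟩ := Module.projective_lifting_property S.d LinearMap.id hsurj
  have hs' : ∀ x, S.d (s x) = x := fun x => LinearMap.congr_fun hs x
  have hdk : ∀ z : LinearMap.ker S.d, S.d (z : S.J →₀ R) = 0 := fun z => z.2
  let q : (S.J →₀ R) →ₗ[R] (S.J →₀ R) := LinearMap.id - s ∘ₗ S.d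
  have hp : ∀ w : S.J →₀ R, q w ∈ LinearMap.ker S.d := by
    intro w
    rw [LinearMap.mem_ker]
    change S.d (w - s (S.d w)) = 0
    rw [map_sub, hs', sub_self]
  let p' : (S.J →₀ R) →ₗ[R] LinearMap.ker S.d :=
    q.codRestrict (LinearMap.ker S.d) hp
  let i0 : LinearMap.ker S.d →ₗ[R] (S.J →₀ R) := (LinearMap.ker S.d).subtype
  have a1 : ∀ z, p' (i0 z) = z := fun z => Subtype.ext (by
    change (z : S.J →₀ R) - s (S.d z) = z
    rw [hdk, map_zero, sub_zero])
  have hZ : Module.Projective R (LinearMap.ker S.d) :=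
    Module.Projective.of_split i0 p' (LinearMap.ext a1)
  have ht0 : ∀ z : LinearMap.ker S.d,
      bc Λ S.d ((S.t.pre (LinearMap.ker S.d).subtype).app (emb R Λ S.J) z) = 0 := by
    intro z
    have e1 : S.d ((LinearMap.ker S.d).subtype z) = 0 := z.2
    have e2 := S.ht ((LinearMap.ker S.d).subtype z)
    rw [e1, map_zero] at e2
    exact e2
  let t0 : Tr R Λ (LinearMap.ker S.d) (S.J →₀ R) := S.t.pre (LinearMap.ker S.d).subtype
  obtain ⟨tz, htz⟩ := exists_tr_ker hF hC S.d S.e S.hd t0 ht0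
  have d0 : IsUnit (1 - tz.mat) ∧ κ.f (1 - tz.mat) = 1 :=
    h3 R Λ hF hC K κ p (levOf S) hZ hd tz htz
  obtain ⟨d1, d2⟩ := d0
  obtain ⟨d3, d4⟩ := hb hu
  have a2 : ∀ w, i0 (p' w) + s (S.d w) = w := fun w => by
    change (w - s (S.d w)) + s (S.d w) = w
    rw [sub_add_cancel]
  have a3 : ∀ z, S.d (i0 z) = 0 := hdk
  have a4 : ∀ x, p' (s x) = 0 := fun x => Subtype.ext (by
    change s x - s (S.d (s x)) = 0
    rw [hs', sub_self])
  let t1 : Tr R Λ (LinearMap.ker S.d) (S.J →₀ R) := S.t.pre i0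
  let t2 : Tr R Λ (LinearMap.ker S.d) (S.J →₀ R) := tz.post i0
  have a5 : ∀ z f, S.t.ev (i0 z) f = tz.ev z (f ∘ₗ i0) := fun z f =>
    ev_eq_of_app t1 t2 z (htz z).symm f
  have a6 : ∀ w c, S.t.ev w (lapply c ∘ₗ S.d) = S.N (S.d w) c := fun w c => by
    rw [ev_lapply, S.ht]
  have hadd := add_lemma i0 S.d s p' hs' a1 a2 a3 a4 S.t tz S.N a5 a6 hc1 d1 d3 κ
  rw [hc2, d2, one_mul, d4 K κ] at hadd
  exact hadd.symm

end NilVanP

end Pool.Agent.WaldT
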