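import Mathlib
import Pool.Agent.Lib.MP_8f66f0_al_WaldT.Spec
import Pool.Agent.Lib.MP_8f66f0_al_Wald.DiagDefs
import Pool.Agent.Lib.MP_8f66f0_al_Wald.DiagProj
import Pool.Agent.Lib.MP_8f66f0_al_Wald.DiagMap
import Pool.Agent.Lib.MP_8f66f0_al_Wald.IntSub

/-! Kernels of matrices over `ℤE` have projective dimension at most the cohomological dimension of
`E`. -/

set_option autoImplicit false

namespace Pool.Agent.WaldT

open Pool.Agent.Wald CategoryTheory TensorProduct

private theorem pdOf_sh {R : Type} [Ring R] {P M : Type} [AddCommGroup P] [Module R P]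
    [AddCommGroup M] [Module R M] [Module.Projective R P] (f : P →ₗ[R] M)
    (hf : Function.Surjective f) (n : ℕ)
    (hM : HasProjectiveDimensionLT (ModuleCat.of R M) (n + 2)) :
    HasProjectiveDimensionLT (ModuleCat.of R (LinearMap.ker f)) (n + 1) := by
  have h1 := LinearMap.shortExact_shortComplexKer hf
  have hP : Projective (ModuleCat.of R P) := (IsProjective.iff_projective P).mp inferInstance
  have h2 : HasProjectiveDimensionLT (ModuleCat.of R P) (n + 1) :=
    hasProjectiveDimensionLT_of_ge _ 1 _ (by omega)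
  exact h1.hasProjectiveDimensionLT_X₁ (n + 1) h2 hM

private theorem pdOf_inj {M A B : Type} [AddCommGroup M] [AddCommGroup A] [AddCommGroup B]
    (i : A →ₗ[ℤ] B) (r : B →ₗ[ℤ] A) (h : r ∘ₗ i = LinearMap.id) :
    Function.Injective (LinearMap.lTensor M i) := by
  have h1 : ∀ x, LinearMap.lTensor M r (LinearMap.lTensor M i x) = x := by
    intro x
    rw [← LinearMap.comp_apply, ← LinearMap.lTensor_comp, h, LinearMap.lTensor_id]
    rfl
  exact Function.LeftInverse.injective h1

private theorem pdOf_ses {S : Type} [Ring S] {A B C : Type} [AddCommGroup A] [Module S A]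
    [AddCommGroup B] [Module S B] [AddCommGroup C] [Module S C] (f : A →ₗ[S] B) (g : B →ₗ[S] C)
    (hf : Function.Injective f) (hfg : Function.Exact f g) (hg : Function.Surjective g) (n : ℕ)
    (hA : HasProjectiveDimensionLT (ModuleCat.of S A) n)
    (hB : HasProjectiveDimensionLT (ModuleCat.of S B) (n + 1)) :
    HasProjectiveDimensionLT (ModuleCat.of S C) (n + 1) := by
  have hse := ModuleCat.shortComplex_shortExact
    (ModuleCat.shortComplexOfCompEqZero f g (LinearMap.ext fun x => (hfg _).mpr ⟨x, rfl⟩))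
    hfg hf hg
  exact hse.hasProjectiveDimensionLT_X₃ n hA hB

private theorem pdOf_retr {K P N : Type} [AddCommGroup K] [AddCommGroup P] [AddCommGroup N]
    (i : K →ₗ[ℤ] P) (ε : P →ₗ[ℤ] N) (hi : Function.Injective i) (hex : Function.Exact i ε)
    (hε : Function.Surjective ε) [Module.Projective ℤ N] :
    ∃ r : P →ₗ[ℤ] K, r ∘ₗ i = LinearMap.id := by
  obtain ⟨s, hs⟩ := Module.projective_lifting_property ε LinearMap.id hε
  have hs' : ∀ x, ε (s x) = x := fun x => LinearMap.congr_fun hs x
  have h1 : ∀ x : P, ∃ k : K, i k = x - s (ε x) := fun x =>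
    (hex _).mp (by rw [map_sub, hs', sub_self])
  choose f hf using h1
  let r0 : P →+ K :=
    { toFun := f
      map_zero' := hi (by rw [hf, map_zero, map_zero, sub_zero, map_zero])
      map_add' := fun x y => hi (by
        rw [hf, map_add i, hf, hf, map_add, map_add]
        abel) }
  refine ⟨r0.toIntLinearMap, LinearMap.ext fun x => hi ?_⟩
  change i (f (i x)) = i x
  have hx : ε (i x) = 0 := (hex _).mpr ⟨x, rfl⟩
  rw [hf, hx, map_zero, sub_zero]

private theorem pdOf_step {E : Type} [Group E] (M : Type) [AddCommGroup M]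
    [Module (MonoidAlgebra ℤ E) M] [Module.Projective ℤ M] (d : ℕ)
    (ih : ∀ (N : Type) [AddCommGroup N] [Module (MonoidAlgebra ℤ E) N] [Module.Projective ℤ N],
      HasProjectiveDimensionLT (ModuleCat.of (MonoidAlgebra ℤ E) N) (d + 1) →
      HasProjectiveDimensionLT (ModuleCat.of (MonoidAlgebra ℤ E) (diagRep ℤ E M N).asModule)
        (d + 1))
    {K P N : Type} [AddCommGroup K] [Module (MonoidAlgebra ℤ E) K] [AddCommGroup P]
    [Module (MonoidAlgebra ℤ E) P] [AddCommGroup N] [Module (MonoidAlgebra ℤ E) N]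
    [Module.Projective ℤ N] [Module.Projective ℤ P] [Module.Projective (MonoidAlgebra ℤ E) P]
    (i : K →ₗ[MonoidAlgebra ℤ E] P) (ε : P →ₗ[MonoidAlgebra ℤ E] N) (hi : Function.Injective i)
    (hex : Function.Exact i ε) (hε : Function.Surjective ε)
    (hK : HasProjectiveDimensionLT (ModuleCat.of (MonoidAlgebra ℤ E) K) (d + 1)) :
    HasProjectiveDimensionLT (ModuleCat.of (MonoidAlgebra ℤ E) (diagRep ℤ E M N).asModule)
        (d + 1 + 1) := by
  let iz : K →ₗ[ℤ] P := i.toAddMonoidHom.toIntLinearMap
  let εz : P →ₗ[ℤ] N := ε.toAddMonoidHom.toIntLinearMap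
  have hεz : Function.Surjective εz := hε
  have h10 : Function.Exact iz εz := hex
  obtain ⟨r, hri⟩ := pdOf_retr iz εz hi hex hε
  have hKz : Module.Projective ℤ K := Module.Projective.of_split iz r hri
  have hdK := ih K hK
  have hdP : HasProjectiveDimensionLT (ModuleCat.of (MonoidAlgebra ℤ E)
      (diagRep ℤ E M P).asModule) (d + 1 + 1) := by
    have h2 := diag_projective ℤ E M P
    have h3 : HasProjectiveDimensionLT (ModuleCat.of (MonoidAlgebra ℤ E)
        (diagRep ℤ E M P).asModule) 1 :=
      projective_iff_hasProjectiveDimensionLT_one.mp ((IsProjective.iff_projective _).mp h2)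
    exact hasProjectiveDimensionLT_of_ge _ 1 _ (by omega)
  obtain ⟨F1, hF1⟩ := diag_map ℤ E M i
  obtain ⟨F0, hF0⟩ := diag_map ℤ E M ε
  have t0 : Function.Surjective (LinearMap.lTensor M εz) := LinearMap.lTensor_surjective M hεz
  have t10 : Function.Exact (LinearMap.lTensor M iz) (LinearMap.lTensor M εz) :=
    lTensor_exact M h10 hεz
  have t1 : Function.Injective (LinearMap.lTensor M iz) := pdOf_inj iz r hri
  refine pdOf_ses F1 F0 ?_ ?_ ?_ (d + 1) hdK hdP
  · intro a b hab
    obtain ⟨x, rfl⟩ := (diagRep ℤ E M K).asModuleEquiv.symm.surjective a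
    obtain ⟨y, rfl⟩ := (diagRep ℤ E M K).asModuleEquiv.symm.surjective b
    rw [hF1, hF1] at hab
    rw [t1 ((diagRep ℤ E M P).asModuleEquiv.symm.injective hab)]
  · intro a
    obtain ⟨x, rfl⟩ := (diagRep ℤ E M P).asModuleEquiv.symm.surjective a
    rw [hF0, LinearEquiv.map_eq_zero_iff]
    refine (t10 x).trans ⟨?_, ?_⟩
    · rintro ⟨y, rfl⟩
      exact ⟨(diagRep ℤ E M K).asModuleEquiv.symm y, hF1 y⟩
    · rintro ⟨b, hb⟩
      obtain ⟨y, rfl⟩ := (diagRep ℤ E M K).asModuleEquiv.symm.surjective b
      rw [hF1] at hb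
      exact ⟨y, (diagRep ℤ E M P).asModuleEquiv.symm.injective hb⟩
  · intro a
    obtain ⟨x, rfl⟩ := (diagRep ℤ E M N).asModuleEquiv.symm.surjective a
    obtain ⟨y, rfl⟩ := t0 x
    exact ⟨(diagRep ℤ E M P).asModuleEquiv.symm y, hF0 y⟩

private theorem pdOf_claim {E : Type} [Group E] (M : Type) [AddCommGroup M]
    [Module (MonoidAlgebra ℤ E) M] [Module.Projective ℤ M] (d : ℕ) :
    ∀ (N : Type) [AddCommGroup N] [Module (MonoidAlgebra ℤ E) N] [Module.Projective ℤ N],
      HasProjectiveDimensionLT (ModuleCat.of (MonoidAlgebra ℤ E) N) (d + 1) →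
      HasProjectiveDimensionLT (ModuleCat.of (MonoidAlgebra ℤ E) (diagRep ℤ E M N).asModule)
        (d + 1) := by
  induction d with
  | zero =>
    intro N _ _ _ hN
    have h1 : Module.Projective (MonoidAlgebra ℤ E) N :=
      (IsProjective.iff_projective _).mpr (projective_iff_hasProjectiveDimensionLT_one.mpr hN)
    have h2 := diag_projective ℤ E M N
    exact projective_iff_hasProjectiveDimensionLT_one.mp ((IsProjective.iff_projective _).mp h2)
  | succ d ih =>
    intro N _ _ _ hN
    let ε : (N →₀ MonoidAlgebra ℤ E) →ₗ[MonoidAlgebra ℤ E] N :=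
      Finsupp.linearCombination (MonoidAlgebra ℤ E) (id : N → N)
    have hε : Function.Surjective ε := fun m => ⟨Finsupp.single m 1, by
      change Finsupp.linearCombination (MonoidAlgebra ℤ E) (id : N → N) (Finsupp.single m 1) = m
      rw [Finsupp.linearCombination_single, one_smul]
      rfl⟩
    have hPz : Module.Projective ℤ (N →₀ MonoidAlgebra ℤ E) := inferInstance
    have hK : HasProjectiveDimensionLT (ModuleCat.of (MonoidAlgebra ℤ E) (LinearMap.ker ε))
        (d + 1) := pdOf_sh ε hε d hN
    refine pdOf_step M d ih (LinearMap.ker ε).subtype ε Subtype.val_injective ?_ hε hK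
    intro y
    constructor
    · intro hy
      exact ⟨⟨y, hy⟩, rfl⟩
    · rintro ⟨z, rfl⟩
      exact z.2

theorem pdOf : S_PdOf := by
  intro E _ d hd a b e
  have hproj : Module.Projective ℤ (LinearMap.range e) := by
    let φ : (Fin b →₀ MonoidAlgebra ℤ E) →+ (Fin b × E →₀ ℤ) :=
      (Finsupp.curryAddEquiv (α := Fin b) (β := E) (M := ℤ)).symm.toAddMonoidHom.comp
        (Finsupp.mapRange.addMonoidHom (MonoidAlgebra.coeffAddEquiv (R := ℤ) (M := E)).toAddMonoidHom)
    have hφ : Function.Injective φ :=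
      (Finsupp.curryAddEquiv (α := Fin b) (β := E) (M := ℤ)).symm.injective.comp
        (Finsupp.mapRange_injective _ (map_zero _)
          (MonoidAlgebra.coeffAddEquiv (R := ℤ) (M := E)).injective)
    let ψ : LinearMap.range e →ₗ[ℤ] (Fin b × E →₀ ℤ) :=
      { toFun := fun x => φ (x : Fin b →₀ MonoidAlgebra ℤ E)
        map_add' := fun x y => map_add φ _ _
        map_smul' := fun n x => map_zsmul φ n (x : Fin b →₀ MonoidAlgebra ℤ E) }
    have hψ : Function.Injective ψ := hφ.comp Subtype.val_injective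
    have h1 := int_submodule_projective (Fin b × E) (LinearMap.range ψ)
    exact Module.Projective.of_equiv (LinearEquiv.ofInjective ψ hψ).symm
  have hTZ : Module.Projective ℤ (Representation.trivial ℤ E ℤ).asModule :=
    Module.Projective.of_equiv (Representation.trivial ℤ E ℤ).asModuleEquiv.symm
  have h1 := pdOf_claim (LinearMap.range e) d (Representation.trivial ℤ E ℤ).asModule hd
  obtain ⟨f, -⟩ := diag_trivial ℤ E (LinearMap.range e)
  have h2 : HasProjectiveDimensionLT (ModuleCat.of (MonoidAlgebra ℤ E) (LinearMap.range e))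
      (d + 1) := hasProjectiveDimensionLT_of_iso f.toModuleIso (d + 1)
  have h3 : HasProjectiveDimensionLT (ModuleCat.of (MonoidAlgebra ℤ E) (LinearMap.range e))
      (d + 2) := hasProjectiveDimensionLT_of_ge _ (d + 1) _ (by omega)
  have h4 := pdOf_sh e.rangeRestrict e.surjective_rangeRestrict d h3
  have hk : LinearMap.ker e.rangeRestrict = LinearMap.ker e := LinearMap.ker_rangeRestrict e
  rw [hk] at h4
  exact h4

end Pool.Agent.WaldT
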