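import Pool.Agent.Lib.MP_8f66f0_al_WaldT.Spec

/-! A5 (Rel): relations of finitely many elements at arbitrary points (helper33). -/

set_option autoImplicit false

namespace Pool.Agent.WaldT

open Pool.Agent.Wald Finsupp

private theorem rel_sum_sub {Q M : Type} [Fintype Q] [AddCommMonoid M] (P : Q → Prop)
    [DecidablePred P] (f : {q // P q} → M) :
    ∑ q, (if h : P q then f ⟨q, h⟩ else 0) = ∑ q : {q // P q}, f q := by
  have h1 : ∀ q : {q // P q}, f q = (fun q => if h : P q then f ⟨q, h⟩ else 0) q.1 := fun q => by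
    show f q = if h : P q.1 then f ⟨q.1, h⟩ else 0
    rw [dif_pos q.2]
  rw [Finset.sum_congr rfl (fun q _ => h1 q),
    ← Finset.sum_subtype (Finset.univ.filter P) (fun q => by simp)
      (fun q => if h : P q then f ⟨q, h⟩ else 0)]
  symm
  refine Finset.sum_subset (Finset.subset_univ _) fun q _ hq => ?_
  have h2 : ¬ P q := fun h => hq (Finset.mem_filter.2 ⟨Finset.mem_univ q, h⟩)
  rw [dif_neg h2]

private theorem dx_zero_of {E X : Type} [Group E] [MulAction E X] (x p : X)
    (r : MonoidAlgebra ℤ E) (h : ∀ k : E, k • x ≠ p) : dx x r p = 0 := by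
  classical
  unfold dx
  rw [Finsupp.sum, Finsupp.finsetSum_apply]
  refine Finset.sum_eq_zero fun g _ => ?_
  rw [Finsupp.single_apply, if_neg (h g⁻¹)]

theorem rel (h1 : S_DxA) (h2 : S_RelOne) : S_Rel := by
  classical
  intro E X _ _ hK A Q _ _ x m
  obtain ⟨-, -, -, h4, -, -, -⟩ := h1 E X X
  -- representatives of the orbits
  let y : Q → X := fun q => Quotient.out (Quotient.mk (MulAction.orbitRel E X) (x q))
  have hy : ∀ q, ∃ g : E, g • y q = x q := by
    intro q
    have h5 : y q ∈ MulAction.orbit E (x q) :=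
      Quotient.mk_out (s := MulAction.orbitRel E X) (x q)
    obtain ⟨g, hg⟩ := h5
    refine ⟨g⁻¹, ?_⟩
    rw [← hg]
    exact inv_smul_smul g (x q)
  choose g hg using hy
  have hyy : ∀ q q' (k : E), k • y q = y q' → y q = y q' := by
    intro q q' k hk
    have h5 : Quotient.mk (MulAction.orbitRel E X) (x q) =
        Quotient.mk (MulAction.orbitRel E X) (x q') := by
      apply Quotient.sound
      show x q ∈ MulAction.orbit E (x q')
      refine ⟨g q * k⁻¹ * (g q')⁻¹, ?_⟩
      show (g q * k⁻¹ * (g q')⁻¹) • x q' = x q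
      rw [← hg q', mul_smul, mul_smul, inv_smul_smul, ← hk, inv_smul_smul, hg]
    show Quotient.out (Quotient.mk (MulAction.orbitRel E X) (x q)) = _
    rw [h5]
  have hs1 : ∀ k : E, (MonoidAlgebra.single k (1 : ℤ) : MonoidAlgebra ℤ E) *
      MonoidAlgebra.single k⁻¹ (1 : ℤ) = 1 := fun k => by
    rw [MonoidAlgebra.single_mul_single, mul_inv_cancel, one_mul, ← MonoidAlgebra.one_def]
  have hs2 : ∀ k : E, (MonoidAlgebra.single k⁻¹ (1 : ℤ) : MonoidAlgebra ℤ E) *
      MonoidAlgebra.single k (1 : ℤ) = 1 := fun k => by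
    rw [MonoidAlgebra.single_mul_single, inv_mul_cancel, one_mul, ← MonoidAlgebra.one_def]
  let m' : Q → A → MonoidAlgebra ℤ E := fun q a => MonoidAlgebra.single (g q)⁻¹ (1 : ℤ) * m q a
  have hdx : ∀ q a, dx (x q) (m q a) =
      (MonoidAlgebra.single (g q) (1 : ℤ) : MonoidAlgebra ℤ E) • dx (y q) (m' q a) := by
    intro q a
    rw [← h4 (y q) (g q) (m' q a), hg]
    show _ = dx (x q) (_ * (_ * _))
    rw [← mul_assoc, hs1, one_mul]
  have hkey : ∀ q a (r : MonoidAlgebra ℤ E),
      (r * MonoidAlgebra.single (g q)⁻¹ (1 : ℤ)) • dx (x q) (m q a) = r • dx (y q) (m' q a) := by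
    intro q a r
    rw [hdx, smul_smul, mul_assoc, hs2, mul_one]
  have h6 := fun y0 : X => h2 E X y0 (hK y0) A {q // y q = y0} (fun q a => m' q.1 a)
  choose T ρ hρ1 hρ2 using h6
  let O : Finset X := Finset.univ.image y
  let R : (Σ y0 : O, Fin (T y0)) → Q → MonoidAlgebra ℤ E := fun i q =>
    if h : y q = i.1 then ρ i.1 i.2 ⟨q, h⟩ * MonoidAlgebra.single (g q)⁻¹ (1 : ℤ) else 0
  let e : Fin (Fintype.card (Σ y0 : O, Fin (T y0))) ≃ (Σ y0 : O, Fin (T y0)) :=
    (Fintype.equivFin _).symm
  refine ⟨Fintype.card (Σ y0 : O, Fin (T y0)), fun i => R (e i), ?_, ?_⟩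
  · intro i a
    show ∑ q, R (e i) q • dx (x q) (m q a) = 0
    generalize e i = j
    obtain ⟨y0, i0⟩ := j
    have h7 : ∀ q, R ⟨y0, i0⟩ q • dx (x q) (m q a) = if h : y q = y0 then
        (fun q : {q // y q = (y0 : X)} => ρ y0 i0 q • dx (y0 : X) (m' q.1 a)) ⟨q, h⟩ else 0 := by
      intro q
      by_cases h : y q = y0
      · rw [dif_pos h]
        show (if h : y q = y0 then _ else _) • _ = _
        rw [dif_pos h, hkey, h]
      · rw [dif_neg h]
        show (if h : y q = y0 then _ else _) • _ = _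
        rw [dif_neg h, zero_smul]
    rw [Finset.sum_congr rfl fun q _ => h7 q,
      rel_sum_sub (fun q => y q = (y0 : X))
        (fun q : {q // y q = (y0 : X)} => ρ y0 i0 q • dx (y0 : X) (m' q.1 a))]
    exact hρ1 y0 i0 a
  · intro c hc
    let c' : Q → MonoidAlgebra ℤ E := fun q => c q * MonoidAlgebra.single (g q) (1 : ℤ)
    have hc' : ∀ q, c q = c' q * MonoidAlgebra.single (g q)⁻¹ (1 : ℤ) := fun q => by
      show _ = _ * _ * _
      rw [mul_assoc, hs1, mul_one]
    have h8 : ∀ a, ∑ q, c' q • dx (y q) (m' q a) = 0 := fun a => by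
      rw [← hc a]
      exact Finset.sum_congr rfl fun q _ => by rw [hc' q, hkey]
    have h9 : ∀ y0 : O, ∃ z : Fin (T y0) → MonoidAlgebra ℤ E, ∀ q : {q // y q = (y0 : X)},
        c' q.1 = ∑ i, z i * ρ y0 i q := by
      intro y0
      obtain ⟨q0, -, hq0⟩ := Finset.mem_image.1 y0.2
      refine hρ2 y0 (fun q => c' q.1) fun a => ?_
      rw [← rel_sum_sub (fun q => y q = (y0 : X))
        (fun q : {q // y q = (y0 : X)} => c' q.1 • dx (y0 : X) (m' q.1 a))]
      refine Finsupp.ext fun p => ?_
      by_cases hp : ∃ k : E, k • (y0 : X) = p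
      · obtain ⟨k, hk⟩ := hp
        have h8' := DFunLike.congr_fun (h8 a) p
        rw [Finsupp.finsetSum_apply] at h8' ⊢
        refine Eq.trans (Finset.sum_congr rfl fun q _ => ?_) h8'
        by_cases h : y q = y0
        · rw [dif_pos h, h]
        · rw [dif_neg h, Finsupp.smul_apply, dx_zero_of (y q) p, smul_zero]
          · rfl
          · intro k' hk'
            apply h
            rw [← hq0]
            refine hyy q q0 (k⁻¹ * k') ?_
            rw [mul_smul, hk', ← hk, inv_smul_smul, hq0]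
      · rw [Finsupp.finsetSum_apply]
        refine Finset.sum_eq_zero fun q _ => ?_
        by_cases h : y q = y0
        · rw [dif_pos h]
          show (c' q • dx (y0 : X) (m' q a)) p = 0
          rw [Finsupp.smul_apply, dx_zero_of _ p, smul_zero]
          intro k hk
          exact hp ⟨k, hk⟩
        · rw [dif_neg h]
          rfl
    choose z hz using h9
    refine ⟨fun i => z (e i).1 (e i).2, fun q => ?_⟩
    show c q = ∑ i, z (e i).1 (e i).2 * R (e i) q
    rw [Equiv.sum_comp e (fun j : (Σ y0 : O, Fin (T y0)) => z j.1 j.2 * R j q),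
      Fintype.sum_sigma]
    have hmem : y q ∈ O := Finset.mem_image.2 ⟨q, Finset.mem_univ q, rfl⟩
    rw [Finset.sum_eq_single (⟨y q, hmem⟩ : O)]
    · rw [hc' q, hz ⟨y q, hmem⟩ ⟨q, rfl⟩, Finset.sum_mul]
      refine Finset.sum_congr rfl fun i _ => ?_
      show _ = _ * (if h : y q = y q then _ else _)
      rw [dif_pos rfl, mul_assoc]
    · intro b _ hb
      refine Finset.sum_eq_zero fun i _ => ?_
      have h10 : y q ≠ b := fun h => hb (Subtype.ext h.symm)
      show _ * (if h : y q = b then _ else _) = 0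
      rw [dif_neg h10, mul_zero]
    · intro h
      exact absurd (Finset.mem_univ _) h

end Pool.Agent.WaldT
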