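import Pool.Agent.Lib.MP_8f66f0_al_WaldT.Spec
import Pool.Agent.Lib.MP_8f66f0_al_Wald.Step

/-! WaldT, module B2: the step lemma with one more conclusion. -/

set_option autoImplicit false

namespace Pool.Agent.WaldT

open Pool.Agent.Wald Finsupp Matrix

theorem step2 : S_Step2 := by
  intro R Λ _ _ _ _ hF hC n ν S B B' h h' hS hh
  classical
  have hed : ∀ w, S.e (S.d w) = 0 := fun w => by
    have : S.d w ∈ LinearMap.ker S.e := S.hd ▸ LinearMap.mem_range_self S.d w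
    simpa using this
  let η : Fin S.t.k → (S.J →₀ Λ) := fun a => S.t.lam a • emb R Λ S.J (S.t.y a)
  have happ : ∀ w, S.t.app (emb R Λ S.J) w = ∑ a, S.t.φ a w • η a := fun w => rfl
  let g : (Fin S.r →₀ R) →ₗ[R] (B' →₀ R) := h' ∘ₗ S.e
  let k1 : Fin S.r → (Fin S.r →₀ Λ) := fun b => S.N (single b 1)
  let k2 : Fin S.t.k → (Fin S.r →₀ Λ) := fun a => bc Λ S.d (η a)
  have hgN : ∀ x, bc Λ g (S.N x) = 0 := fun x => by
    rw [← bc_comp, S.hN]
    exact hh _ (hS x)
  have hgd : ∀ y, bc Λ g (bc Λ S.d y) = 0 := fun y => by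
    rw [bc_comp]
    have : g ∘ₗ S.d = 0 := by
      ext j
      simp [g, hed]
    rw [this]
    simp [bc, Finsupp.linearCombination_apply]
  let k : Fin (S.r + S.t.k) → (Fin S.r →₀ Λ) := Fin.append k1 k2
  have hk : ∀ l, bc Λ g (k l) = 0 := by
    intro l
    refine Fin.addCases (fun b => ?_) (fun a => ?_) l
    · simp only [k, Fin.append_left]; exact hgN _
    · simp only [k, Fin.append_right]; exact hgd _
  obtain ⟨s', k3, T, ρ, ρ', hk3, hρ, hcl⟩ := hC (Fin S.r) B' g (S.r + S.t.k) k hk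
  -- a common finite family
  let ι := (Fin S.r ⊕ Fin S.t.k) ⊕ Fin s'
  let y : ι → (Fin S.r →₀ Λ) := Sum.elim (Sum.elim k1 k2) k3
  obtain ⟨r', I, Φ, hgI, hIΦ⟩ := Step.collect hF g y (by
    rintro ((b | a) | c)
    · exact hgN _
    · exact hgd _
    · exact hk3 _)
  let Ψ : Fin S.r → (Fin r' →₀ Λ) := fun b => Φ (Sum.inl (Sum.inl b))
  let χ : Fin S.t.k → (Fin r' →₀ Λ) := fun a => Φ (Sum.inl (Sum.inr a))
  let κ : Fin s' → (Fin r' →₀ Λ) := fun c => Φ (Sum.inr c)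
  have hΨ : ∀ b, bc Λ I (Ψ b) = k1 b := fun b => hIΦ _
  have hχ : ∀ a, bc Λ I (χ a) = k2 a := fun a => hIΦ _
  have hκ : ∀ c, bc Λ I (κ c) = k3 c := fun c => hIΦ _
  obtain ⟨P, hP⟩ := Step.exists_ext (R := R) Ψ
  have hNP : ∀ x, S.N x = bc Λ I (P x) := by
    obtain ⟨Q, hQ⟩ := Step.bc_rcomp I P
    intro x
    rw [← hQ]
    refine Step.ext_single _ _ (fun b => ?_) x
    rw [hQ, hP, hΨ]
  -- the pullback
  let IW := Step.sndMap I S.d
  let d' := Step.fstMap I S.d
  have hdI : ∀ w, S.d (IW w) = I (d' w) := Step.fst_snd I S.d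
  -- the two kinds of lifts
  let ω : Fin T → (Fin r' →₀ Λ) := fun t => ∑ b, ρ t (Fin.castAdd _ b) • Ψ b +
    ∑ a, ρ t (Fin.natAdd _ a) • χ a + ∑ c, ρ' t c • κ c
  have hω : ∀ t, bc Λ I (ω t) = bc Λ S.d 0 := by
    intro t
    have h1 := hρ t
    rw [Fin.sum_univ_add] at h1
    simp only [k, Fin.append_left, Fin.append_right] at h1
    simp only [ω, map_add, map_sum, bc_rsmul, hΨ, hχ, hκ, map_zero]
    exact h1
  choose A hA1 hA2 using fun t => Step.lift I S.d hF (ω t) 0 (hω t)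
  choose Bq hB1 hB2 using fun a => Step.lift I S.d hF (χ a) (η a) (hχ a)
  -- the relation
  let c : (S.J →₀ R) →ₗ[R] (Fin (S.r + S.t.k) → R) :=
    LinearMap.pi (Fin.addCases (fun b => lapply b ∘ₗ S.d) (fun a => -S.t.φ a))
  have hc1 : ∀ x b, c x (Fin.castAdd _ b) = S.d x b := by
    intro x b
    simp [c]
  have hc2 : ∀ x a, c x (Fin.natAdd _ a) = -S.t.φ a x := by
    intro x a
    simp [c]
  have hrel : ∀ x, ∑ l, c x l • k l = 0 := by
    intro x
    rw [Fin.sum_univ_add]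
    simp only [k, Fin.append_left, Fin.append_right, hc1, hc2]
    have h1 : ∑ b, S.d x b • k1 b = S.N (S.d x) := by
      conv_rhs => rw [← Step.sum_single_smul (S.d x), map_sum]
      simp only [map_smul]
      rfl
    have h2 : ∑ a, -S.t.φ a x • k2 a = - bc Λ S.d (S.t.app (emb R Λ S.J) x) := by
      rw [happ, map_sum, ← Finset.sum_neg_distrib]
      refine Finset.sum_congr rfl fun a _ => ?_
      rw [bc_rsmul, neg_smul]
    rw [h1, h2, S.ht, add_neg_cancel]
  obtain ⟨z, hz⟩ := Step.coef ρ ρ' c (fun x => hcl _ (hrel x))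
  obtain ⟨τ, hτ⟩ := Step.exists_tr (R := R) (Λ := Λ)
    (Sum.elim z S.t.φ : Fin T ⊕ Fin S.t.k → ((S.J →₀ R) →ₗ[R] R)) (Sum.elim A Bq)
  have hτ' : ∀ w, τ.app (emb R Λ (Step.Pb I S.d)) w =
      ∑ t, z t w • A t + ∑ a, S.t.φ a w • Bq a := by
    intro w
    rw [hτ, Fintype.sum_sum_type]
    rfl
  have hτd : ∀ w, bc Λ d' (τ.app (emb R Λ (Step.Pb I S.d)) w) = P (S.d w) := by
    intro w
    rw [hτ', map_add, map_sum, map_sum]
    simp only [bc_rsmul]
    have e1 : ∀ t, bc Λ d' (A t) = ω t := hA1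
    have e2 : ∀ a, bc Λ d' (Bq a) = χ a := hB1
    simp only [e1, e2]
    have e3 : P (S.d w) = ∑ b, S.d w b • Ψ b := by
      conv_lhs => rw [← Step.sum_single_smul (S.d w), map_sum]
      simp only [map_smul, hP]
    have e4 : ∑ t, z t w • ω t = ∑ b, S.d w b • Ψ b - ∑ a, S.t.φ a w • χ a := by
      simp only [ω, smul_add, Finset.sum_add_distrib, Finset.smul_sum, smul_smul]
      rw [Finset.sum_comm, Finset.sum_comm (f := fun t a => (z t w * ρ t (Fin.natAdd S.r a)) • χ a),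
        Finset.sum_comm (f := fun t a => (z t w * ρ' t a) • κ a)]
      simp only [← Finset.sum_smul]
      have f1 : ∀ b, ∑ t, z t w * ρ t (Fin.castAdd S.t.k b) = S.d w b := fun b => by
        rw [(hz w).1, hc1]
      have f2 : ∀ a, ∑ t, z t w * ρ t (Fin.natAdd S.r a) = -S.t.φ a w := fun a => by
        rw [(hz w).1, hc2]
      simp only [f1, f2, (hz w).2, zero_smul, Finset.sum_const_zero, add_zero, neg_smul,
        Finset.sum_neg_distrib]
      rw [sub_eq_add_neg]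
    rw [e3, e4, sub_add_cancel]
  have hτI : ∀ w, bc Λ IW (τ.app (emb R Λ (Step.Pb I S.d)) w) = S.t.app (emb R Λ S.J) w := by
    intro w
    rw [hτ', map_add, map_sum, map_sum, happ]
    simp only [bc_rsmul]
    have e1 : ∀ t, bc Λ IW (A t) = 0 := hA2
    have e2 : ∀ a, bc Λ IW (Bq a) = η a := hB2
    simp only [e1, e2, smul_zero, Finset.sum_const_zero, zero_add]
  have hd' : LinearMap.range d' = LinearMap.ker (S.e ∘ₗ I) := by
    apply le_antisymm
    · rintro _ ⟨w, rfl⟩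
      simp only [LinearMap.mem_ker, LinearMap.comp_apply]
      rw [← hdI, hed]
    · intro q hq
      have h1 : I q ∈ LinearMap.range S.d := by
        rw [S.hd]
        simpa using hq
      obtain ⟨w, hw⟩ := h1
      refine ⟨single ⟨(q, w), hw.symm⟩ 1, ?_⟩
      simp [d', Step.fstMap]
  refine ⟨⟨r', S.e ∘ₗ I, P ∘ₗ I, ?_, Step.Pb I S.d, d', hd', τ.pre IW, ?_⟩, I, P, IW, τ,
    ?_, hNP, fun _ => rfl, hdI, hτd, hτI, rfl, ?_⟩
  · intro x
    simp only [LinearMap.comp_apply]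
    rw [← bc_comp, ← hNP, S.hN]
  · intro w
    rw [app_pre, hτd, hdI]
    rfl
  · intro x
    exact hgI x
  · intro w hw
    refine ⟨single ⟨(0, w), by rw [map_zero, hw]⟩ 1, ?_, ?_⟩
    · simp [d', Step.fstMap]
    · simp [IW, Step.sndMap]

end Pool.Agent.WaldT
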