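import Mathlib
import Pool.Agent.Lib.MP_8f66f0_al_WaldT.Spec
import Pool.Agent.Lib.MP_8f66f0_al_Wald.Supp

/-! A3 (Tw): properties of the twisted map of a matrix (helper98). -/

set_option autoImplicit false

namespace Pool.Agent.WaldT

open Pool.Agent.Wald Finsupp

private theorem lc_dx (h1 : S_DxA) {E X : Type} [Group E] [MulAction E X] (x : X)
    (m r : MonoidAlgebra ℤ E) :
    Finsupp.linearCombination (MonoidAlgebra ℤ E) (fun y : X => dx y r) (dx x m) =
      dx x (m * r) := by
  obtain ⟨a1, a2, a3, a4, -, -, -⟩ := h1 E X X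
  refine (suppIn_univ m).induction
    (p := fun m => Finsupp.linearCombination (MonoidAlgebra ℤ E) (fun y : X => dx y r) (dx x m) =
      dx x (m * r)) ?_ ?_ ?_
  · rw [a2, map_zero, zero_mul, a2]
  · intro m m' hm hm'
    rw [a3, map_add, hm, hm', add_mul, a3]
  · intro g _ n
    have h2 : (MonoidAlgebra.single g n : MonoidAlgebra ℤ E) =
        n • MonoidAlgebra.single g (1 : ℤ) := by
      rw [MonoidAlgebra.smul_single, smul_eq_mul, mul_one]
    have h3 : ∀ s : MonoidAlgebra ℤ E, dx x (n • s) = n • dx x s := by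
      intro s
      let φ : MonoidAlgebra ℤ E →+ (X →₀ MonoidAlgebra ℤ E) :=
        { toFun := dx x, map_zero' := a2 x, map_add' := a3 x }
      exact map_zsmul φ n s
    have h4 : dx x (MonoidAlgebra.single g (1 : ℤ) * r) =
        (MonoidAlgebra.single g (1 : ℤ) : MonoidAlgebra ℤ E) • dx (g⁻¹ • x) r := by
      rw [← a4, smul_inv_smul]
    rw [a1, Finsupp.linearCombination_single, h2, smul_mul_assoc, h3, h4, smul_assoc]

theorem tw_props (h1 : S_DxA) (h2 : S_DxSl) : S_Tw := by
  intro E X Y _ _ _ A B _ _ h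
  have p1 : ∀ (x : X) (m : A → MonoidAlgebra ℤ E) (b : B), tw h (fun a => dx x (m a)) b =
      dx x (∑ a, m a * h a b) := by
    intro x m b
    obtain ⟨a1, a2, a3, a4, -, -, -⟩ := h1 E X X
    let φ : MonoidAlgebra ℤ E →+ (X →₀ MonoidAlgebra ℤ E) :=
      { toFun := dx x, map_zero' := a2 x, map_add' := a3 x }
    have hφ : dx x (∑ a, m a * h a b) = ∑ a, dx x (m a * h a b) := map_sum φ _ _
    rw [hφ]
    unfold tw
    exact Finset.sum_congr rfl fun a _ => lc_dx h1 x (m a) (h a b)
  have p2 : ∀ (Q : Type) [Fintype Q] (c : Q → MonoidAlgebra ℤ E)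
      (z : Q → A → (X →₀ MonoidAlgebra ℤ E)) (b : B),
      tw h (fun a => ∑ q, c q • z q a) b = ∑ q, c q • tw h (z q) b := by
    intro Q _ c z b
    unfold tw
    simp only [map_sum, map_smul, Finset.smul_sum]
    exact Finset.sum_comm
  refine ⟨p1, p2, ?_, ?_⟩
  · intro f hf z b
    obtain ⟨-, -, -, -, -, -, a7⟩ := h1 E X Y
    have hs : ∀ g : A → (X →₀ MonoidAlgebra ℤ E), (∑ a, g a).mapDomain f =
        ∑ a, (g a).mapDomain f := fun g => map_sum (Finsupp.mapDomain.addMonoidHom f) g _
    unfold tw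
    rw [hs]
    refine Finset.sum_congr rfl fun a _ => ?_
    rw [Finsupp.linearCombination_mapDomain]
    have h3 : ∀ z : X →₀ MonoidAlgebra ℤ E,
        (Finsupp.linearCombination (MonoidAlgebra ℤ E) (fun x : X => dx x (h a b)) z).mapDomain f =
        Finsupp.linearCombination (MonoidAlgebra ℤ E)
          ((fun y : Y => dx y (h a b)) ∘ f) z := by
      intro z
      have h4 := LinearMap.congr_fun (Finsupp.lhom_ext
        (φ := (Finsupp.lmapDomain (MonoidAlgebra ℤ E) (MonoidAlgebra ℤ E) f).comp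
          (Finsupp.linearCombination (MonoidAlgebra ℤ E) (fun x : X => dx x (h a b))))
        (ψ := Finsupp.linearCombination (MonoidAlgebra ℤ E) ((fun y : Y => dx y (h a b)) ∘ f))
        (fun x c => by
          rw [LinearMap.comp_apply, Finsupp.linearCombination_single,
            Finsupp.linearCombination_single, map_smul, Finsupp.lmapDomain_apply, a7 f hf]
          rfl)) z
      exact h4
    rw [h3]
  · intro S κ hκ x hx b
    have h3 : tw h (fun a => ∑ x ∈ S, dx x (κ x a)) b = ∑ x ∈ S, dx x (∑ a, κ x a * h a b) := by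
      have h4 := p2 S (fun _ => 1) (fun q a => dx (q : X) (κ q a)) b
      have h5 : (fun a => ∑ q : S, (1 : MonoidAlgebra ℤ E) • dx (q : X) (κ q a)) =
          fun a => ∑ x ∈ S, dx x (κ x a) := by
        funext a
        rw [← Finset.sum_coe_sort S]
        exact Finset.sum_congr rfl fun q _ => one_smul _ _
      rw [h5] at h4
      rw [h4, ← Finset.sum_coe_sort S]
      refine Finset.sum_congr rfl fun q _ => ?_
      rw [one_smul, p1]
    exact (h2 E X).1 S (fun x => ∑ a, κ x a * h a b) (by rw [← h3]; exact hκ b) x hx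

end Pool.Agent.WaldT
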